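import Mathlib
import Pool.Prelude.Def_H_e9e0c647

namespace Pool.Agent.MP_8c4891_lc

/-- One move of Annihilation: a token of type `i` slides along an edge of type `i` from `u` to
`v`; if `v` is occupied both tokens disappear. -/
def Move {V ι : Type} [DecidableEq V] (E : ι → V → V → Prop) (p q : V → Option ι) : Prop :=
  ∃ (i : ι) (u v : V), p u = some i ∧ E i u v ∧
    q = Function.update (Function.update p u none) v (if (p v).isSome then none else some i)

/-- `Forces Mv true p`: the player to move at `p` can force a win (normal play).
`Forces Mv false p`: the other player can force a win. -/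
inductive Forces {S : Type} (Mv : S → S → Prop) : Bool → S → Prop
  | win {p q : S} : Mv p q → Forces Mv false q → Forces Mv true p
  | lose {p : S} : (∀ q, Mv p q → Forces Mv true q) → Forces Mv false p

/-- A position of Annihilation. -/
structure Position where
  n : ℕ
  t : ℕ
  two_le : 2 ≤ t
  G : Fin n → Fin n → Bool
  loopless : ∀ u, G u u = false
  E : Fin t → Fin n → Fin n → Bool
  sub : ∀ i u v, E i u v = true → G u v = true
  place : Fin n → Option (Fin t)

/-- The bit string describing a position: adjacency matrices and token indicator vectors. -/
def Position.code (P : Position) : List Bool :=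
  N487b59b3.bitEncode
    ((List.ofFn fun u => List.ofFn fun v => P.G u v,
      List.ofFn fun i => List.ofFn fun u => List.ofFn fun v => P.E i u v,
      List.ofFn fun i => List.ofFn fun u => decide (P.place u = some i)) :
      List (List Bool) × List (List (List Bool)) × List (List Bool))

/-- `P.Won true`: the player to move wins; `P.Won false`: the other player wins. -/
def Position.Won (P : Position) (b : Bool) : Prop :=
  Forces (Move fun i u v => P.E i u v = true) b P.place

/-- Decidable in time `2 ^ p(n)` for a polynomial `p`. -/
def ExpTime {α : Type} (ea : α → List Bool) (f : α → Bool) : Prop :=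
  ∃ (M : Turing.TM2ComputableInTime ea Computability.encodeBool f) (p : Polynomial ℕ),
    ∀ n, M.time n ≤ 2 ^ p.eval n

end Pool.Agent.MP_8c4891_lc
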