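import Pool.Agent.MP_8c4891_lc.Defs

/-! The gadget graph: a control token and bit-cell tokens simulate an alternating machine. -/

namespace Pool.Agent.MP_8c4891_lc

theorem xor_le_add (a b : ℕ) : a ^^^ b ≤ a + b := by
  induction h : a + b using Nat.strong_induction_on generalizing a b with
  | _ n ih =>
    rcases Nat.eq_zero_or_pos n with rfl | hn
    · have ha : a = 0 := by omega
      have hb : b = 0 := by omega
      simp [ha, hb]
    · have h1 := ih (a / 2 + b / 2) (by omega) (a / 2) (b / 2) rfl
      have h2 : (a ^^^ b) / 2 = a / 2 ^^^ b / 2 := Nat.xor_div_two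
      have h3 : (a ^^^ b) % 2 = (a + b) % 2 := Nat.xor_mod_two_eq
      omega

/-- Alternating programs on bit registers. -/
structure AP (ν : Type) where
  m : ℕ
  own : ν → Bool
  pl : ν → List ν
  fl : ν → List (ℕ × Bool × ν)

variable {ν : Type}

/-- One transition. -/
def AP.Tr (A : AP ν) (a : ν) (mem : ℕ → Bool) (a' : ν) (mem' : ℕ → Bool) : Prop :=
  (a' ∈ A.pl a ∧ mem' = mem) ∨
    ∃ c, (c, mem c, a') ∈ A.fl a ∧ mem' = Function.update mem c (!mem c)

/-- `Res A r a mem`: the player `r` wins from node `a` with memory `mem`. -/
inductive Res (A : AP ν) : Bool → ν → (ℕ → Bool) → Prop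
  | pick {r : Bool} {a : ν} {mem : ℕ → Bool} {a' : ν} {mem' : ℕ → Bool} :
      A.own a = r → A.Tr a mem a' mem' → Res A r a' mem' → Res A r a mem
  | all {r : Bool} {a : ν} {mem : ℕ → Bool} :
      A.own a = !r → (∀ a' mem', A.Tr a mem a' mem' → Res A r a' mem') → Res A r a mem

/-- Vertices of a bit cell. -/
inductive Cq : Type
  | R (b : Bool)
  | T (b : Bool)
  | H (j : ℕ)
  deriving DecidableEq

/-- Vertices of the graph. -/
inductive Vx (ν : Type) : Type
  | N (a : ν) (p : Bool)
  | W1 (c : ℕ) (b : Bool) (a : ν) (p : Bool)
  | W2 (c : ℕ) (b : Bool) (a : ν) (p : Bool)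
  | K (j : ℕ)
  | X (c : ℕ) (q : Cq)
  deriving DecidableEq

open Cq Vx

/-- Moves inside the cell `c`. -/
def outc (c : ℕ) : Cq → List Cq
  | R b => [T (!b)]
  | T b => R b :: (List.range (c + 1)).map H
  | H j => (List.range j).map H

/-- Edges to the heap of the control token, the values `0` and `e` being excluded. -/
def ks (m e : ℕ) : List (Vx ν) :=
  ((List.range (2 * m + 1)).filter (fun j => decide (j ≠ 0 ∧ j ≠ e))).map K

theorem mem_ks {m e : ℕ} {v : Vx ν} :
    v ∈ ks m e ↔ ∃ j, j ≤ 2 * m ∧ j ≠ 0 ∧ j ≠ e ∧ v = K j := by
  simp only [ks, List.mem_map, List.mem_filter, List.mem_range, decide_eq_true_eq]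
  constructor
  · rintro ⟨j, ⟨h1, h2, h3⟩, rfl⟩
    exact ⟨j, by omega, h2, h3, rfl⟩
  · rintro ⟨j, h1, h2, h3, rfl⟩
    exact ⟨j, ⟨by omega, h2, h3⟩, rfl⟩

/-- Edges for the control token. -/
def out0 (A : AP ν) : Vx ν → List (Vx ν)
  | N a p => (if A.own a = p then (A.pl a).map (fun a' => N a' (!p)) ++
        (A.fl a).map (fun f => W1 f.1 f.2.1 f.2.2 (!p)) else [N a (!p)]) ++ ks A.m 0
  | W1 c b a p => [W2 c b a p, X c (R (!b)), X c (H 0)] ++ ks A.m (c + 1)
  | W2 c b a p => [N a p, X c (R b), X c (H 0), X c (T b)] ++ ks A.m (c + 1)
  | K j => (List.range j).map K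
  | X _ _ => (List.range (2 * A.m + 1)).map K

/-- Edges for the cell tokens. -/
def out1 : Vx ν → List (Vx ν)
  | X c q => (outc c q).map (X c)
  | _ => []

/-- The edge relation; the type `false` is the control token. -/
def Edge (A : AP ν) (i : Bool) (u v : Vx ν) : Prop :=
  v ∈ (if i then out1 u else out0 A u)

variable [DecidableEq ν]

/-- The placement with control token at `k` and the token of cell `c` at `pos c`. -/
def place (k : Option (Vx ν)) (pos : ℕ → Option Cq) (v : Vx ν) : Option Bool :=
  if k = some v then some false else
    match v with
    | X c q => if pos c = some q then some true else none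
    | _ => none

/-- Value of a state. -/
def Fo (A : AP ν) (b : Bool) (k : Option (Vx ν)) (pos : ℕ → Option Cq) : Prop :=
  Forces (Move (Edge A)) b (place k pos)

/-- The vertex `v` is not occupied by a cell token. -/
def Free (pos : ℕ → Option Cq) (v : Vx ν) : Prop := ∀ c q, v = X c q → pos c ≠ some q

theorem place_ctrl_move {pos : ℕ → Option Cq} {u v : Vx ν} (hu : Free pos u) :
    Function.update (Function.update (place (some u) pos) u none) v (some false)
      = place (some v) pos := by
  funext w
  by_cases hv : w = v
  · subst hv; simp [place]
  · rw [Function.update_of_ne hv]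
    by_cases hw : w = u
    · subst hw
      rw [Function.update_self]
      simp only [place, Option.some.injEq, Ne.symm hv, if_false]
      cases w with
      | X c q => simp [hu c q rfl]
      | _ => rfl
    · rw [Function.update_of_ne hw]
      simp only [place, Option.some.injEq, Ne.symm hv, Ne.symm hw, if_false]

theorem place_attack {pos : ℕ → Option Cq} {u : Vx ν} (hu : Free pos u) {c : ℕ} {q : Cq}
    (hq : pos c = some q) :
    Function.update (Function.update (place (some u) pos) u none) (X c q) none
      = place none (Function.update pos c none) := by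
  funext w
  by_cases hv : w = X c q
  · subst hv; simp [place]
  · rw [Function.update_of_ne hv]
    by_cases hw : w = u
    · subst hw
      rw [Function.update_self]
      cases w with
      | X c' q' =>
        have := hu c' q' rfl
        by_cases hc : c' = c
        · subst hc; simp [place]
        · simp [place, hc, this]
      | _ => simp [place]
    · rw [Function.update_of_ne hw]
      cases w with
      | X c' q' =>
        by_cases hc : c' = c
        · subst hc
          have : q ≠ q' := fun h => hv (by rw [h])
          simp [place, Ne.symm hw, hq, this]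
        · simp [place, Ne.symm hw, hc]
      | _ => simp [place, Ne.symm hw]

theorem place_cell_move {k : Option (Vx ν)} {pos : ℕ → Option Cq} {c : ℕ} {q q' : Cq}
    (hq : pos c = some q) (hk : k ≠ some (X c q)) (hk' : k ≠ some (X c q')) :
    Function.update (Function.update (place k pos) (X c q) none) (X c q') (some true)
      = place k (Function.update pos c (some q')) := by
  funext w
  by_cases hv : w = X c q'
  · subst hv; simp [place, hk']
  · rw [Function.update_of_ne hv]
    by_cases hw : w = X c q
    · subst hw
      have : q' ≠ q := fun h => hv (by rw [h])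
      simp [place, hk, this]
    · rw [Function.update_of_ne hw]
      cases w with
      | X c' q'' =>
        by_cases hc : c' = c
        · subst hc
          have h1 : q ≠ q'' := fun h => hw (by rw [h])
          have h2 : q' ≠ q'' := fun h => hv (by rw [h])
          simp [place, hq, h1, h2]
        · simp [place, hc]
      | _ => simp [place]

theorem outc_ne {c : ℕ} {q q' : Cq} (h : q' ∈ outc c q) : q' ≠ q := by
  cases q with
  | R b => simp only [outc, List.mem_singleton] at h; subst h; simp
  | T b =>
    simp only [outc, List.mem_cons, List.mem_map] at h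
    rcases h with rfl | ⟨j, -, rfl⟩ <;> simp
  | H j =>
    simp only [outc, List.mem_map, List.mem_range] at h
    obtain ⟨j', h, rfl⟩ := h
    simp; omega

variable {A : AP ν}

theorem W_ctrl {pos : ℕ → Option Cq} {u v : Vx ν} (hu : Free pos u) (huv : u ≠ v)
    (he : v ∈ out0 A u) (hv : Free pos v) (h : Fo A false (some v) pos) :
    Fo A true (some u) pos := by
  refine Forces.win ⟨false, u, v, by simp [place], by simpa [Edge] using he, ?_⟩ h
  have : (place (some u) pos v).isSome = false := by
    cases v with
    | X c q => simp [place, huv, hv c q rfl]
    | _ => simp [place, huv]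
  rw [this]
  exact (place_ctrl_move hu).symm

theorem W_att {pos : ℕ → Option Cq} {u : Vx ν} (hu : Free pos u) {c : ℕ} {q : Cq}
    (he : X c q ∈ out0 A u) (hq : pos c = some q)
    (h : Fo A false none (Function.update pos c none)) : Fo A true (some u) pos := by
  refine Forces.win ⟨false, u, X c q, by simp [place], by simpa [Edge] using he, ?_⟩ h
  have : (place (some u) pos (X c q)).isSome = true := by
    simp only [place, hq, if_true]
    split_ifs <;> rfl
  rw [this]
  exact (place_attack hu hq).symm

/-- The control token is not on a cell vertex. -/
def Off (k : Option (Vx ν)) : Prop := ∀ c q, k ≠ some (X c q)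

theorem W_cell {k : Option (Vx ν)} (hk : Off k) {pos : ℕ → Option Cq} {c : ℕ} {q q' : Cq}
    (hq : pos c = some q) (he : q' ∈ outc c q)
    (h : Fo A false k (Function.update pos c (some q'))) : Fo A true k pos := by
  refine Forces.win ⟨true, X c q, X c q', by simp [place, hk c q, hq], ?_, ?_⟩ h
  · simp only [Edge, if_true, out1]
    exact List.mem_map_of_mem he
  · have : (place k pos (X c q')).isSome = false := by
      simp [place, hk c q', hq, (outc_ne he).symm]
    rw [this]
    exact (place_cell_move hq (hk c q) (hk c q')).symm

theorem L_intro {k : Option (Vx ν)} (hk : Off k) {pos : ℕ → Option Cq}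
    (h1 : ∀ u v, k = some u → v ∈ out0 A u → Free pos v → Fo A true (some v) pos)
    (h2 : ∀ u c q, k = some u → X c q ∈ out0 A u → pos c = some q →
      Fo A true none (Function.update pos c none))
    (h3 : ∀ c q q', pos c = some q → q' ∈ outc c q →
      Fo A true k (Function.update pos c (some q'))) : Fo A false k pos := by
  refine Forces.lose ?_
  rintro _ ⟨i, u, v, hp, he, rfl⟩
  by_cases hku : k = some u
  · subst hku
    have hi : i = false := by simpa [place] using hp.symm
    subst hi
    have he' : v ∈ out0 A u := by simpa [Edge] using he
    have hu : Free pos u := fun c q h => absurd (by rw [h]) (hk c q)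
    by_cases hv : Free pos v
    · by_cases huv : u = v
      · exfalso
        subst huv
        cases u with
        | N a p =>
          simp only [out0, List.mem_append, mem_ks] at he'
          split_ifs at he' <;> simp at he'
        | W1 c b a p => simp [out0, mem_ks] at he'
        | W2 c b a p => simp [out0, mem_ks] at he'
        | K j => simp [out0] at he'
        | X c q => exact hk c q rfl
      have : (place (some u) pos v).isSome = false := by
        cases v with
        | X c q => simp [place, huv, hv c q rfl]
        | _ => simp [place, huv]
      rw [this]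
      have := h1 u v rfl he' hv
      rw [Fo, ← place_ctrl_move hu] at this
      exact this
    · simp only [Free, not_forall, not_not] at hv
      obtain ⟨c, q, rfl, hq⟩ := hv
      have : (place (some u) pos (X c q)).isSome = true := by
        simp only [place, hq, if_true]
        split_ifs <;> rfl
      rw [this]
      have := h2 u c q rfl he' hq
      rw [Fo, ← place_attack hu hq] at this
      exact this
  · cases u with
    | X c q =>
      have hq : pos c = some q := by
        by_contra h
        simp [place, hku, h] at hp
      have hi : i = true := by simpa [place, hku, hq] using hp.symm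
      subst hi
      simp only [Edge, if_true, out1, List.mem_map] at he
      obtain ⟨q', he, rfl⟩ := he
      have : (place k pos (X c q')).isSome = false := by
        simp [place, hk c q', hq, (outc_ne he).symm]
      rw [this]
      have := h3 c q q' hq he
      rw [Fo, ← place_cell_move hq (hk c q) (hk c q')] at this
      exact this
    | _ => simp [place, hku] at hp

end Pool.Agent.MP_8c4891_lc
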