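import Pool.Agent.MP_8c4891_lc.Prog
import Pool.Agent.MP_2e8011_lc.CookLevin

/-! The local rules of the tableau of a multi-stack machine. -/

namespace Pool.Agent.MP_8c4891_lc

open Pool.Agent.MP_2e8011_lc Turing

theorem pt_of_finite {α β : Type} [Enc α] [Enc β] (L : List α) (d : β) : ∀ (f : α → β),
    (∀ a, a ∉ L → f a = d) → PT f := by
  classical
  induction L with
  | nil => intro f h; exact (PT.const d).congr (fun a => (h a (by simp)).symm)
  | cons a₀ L ih =>
    intro f h
    have h1 := ih (fun a => if a = a₀ then d else f a) (fun a ha => by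
      split_ifs with h2
      · rfl
      · exact h a (by simp [h2, ha]))
    have h2 : PT (fun a => if a = a₀ then f a₀ else (if a = a₀ then d else f a)) :=
      PT.ite (by fun_prop) (PT.const _) h1
    refine h2.congr (fun a => ?_)
    by_cases h3 : a = a₀ <;> simp [h3]

variable {K : Type} [DecidableEq K] {Γ : K → Type} {Λ σ : Type}

/-- Meaning of a symbol at position `i`. -/
def Hd (c : TM2.Cfg Γ Λ σ) (i : ℕ) : Sym Γ Λ σ → Prop
  | .inl q => i = 0 ∧ (c.l, c.var) = q
  | .inr s => (c.stk s.1)[i]? = s.2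

omit [DecidableEq K] in
theorem hd_inr (c : TM2.Cfg Γ Λ σ) (i : ℕ) (z : Σ k, Option (Γ k)) :
    Hd c i (.inr z : Sym Γ Λ σ) ↔ Dat.cell c z.1 i = .inr z := by
  obtain ⟨k, o⟩ := z
  simp [Hd, Dat.cell]

theorem exists_sys (D : Dat Γ Λ σ) (hinj : Function.Injective D.i₀) :
    ∃ (Y : Sys) (s₀ : ℕ), s₀ < Y.S ∧ ∀ x : List Bool, ∃ H, Y.Valid x H ∧
      ∀ T, H T 0 s₀ ↔ (((nxt D.m)^[T] (D.c0 x)).stk D.k₁)[0]? = some D.bad := by
  classical
  let SL : List (Sym Γ Λ σ) := D.TL.map Dat.ctl ++ D.OL.map Sum.inr
  let sym : ℕ → Sym Γ Λ σ := fun n => SL.getD n (.inl (none, D.v₀))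
  have hex : ∀ s, ∃ n, s ∈ SL → n < SL.length ∧ sym n = s := by
    intro s
    by_cases hs : s ∈ SL
    · obtain ⟨n, hn, hn'⟩ := List.getElem_of_mem hs
      refine ⟨n, fun _ => ⟨hn, ?_⟩⟩
      simp only [sym]
      rw [List.getD_eq_getElem _ _ hn, hn']
    · exact ⟨0, fun h => absurd h hs⟩
  choose idx hidx using hex
  have hctl : ∀ c ∈ D.TL, Dat.ctl c ∈ SL := fun c hc =>
    List.mem_append_left _ (List.mem_map_of_mem hc)
  have hcell : ∀ c ∈ D.TL, ∀ k j, Dat.cell c k j ∈ SL := fun c hc k j =>
    List.mem_append_right _ (List.mem_map_of_mem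
      ((D.hOL _).2 (D.good_cell ((D.hTL c).1 hc).2 k j)))
  let wn : ℕ → TM2.Cfg Γ Λ σ := fun w => D.TL.getD w (D.c0 [])
  have hwn : ∀ w < D.TL.length, wn w ∈ D.TL := by
    intro w hw
    simp only [wn]
    rw [List.getD_eq_getElem _ _ hw]
    exact List.getElem_mem _
  let prem : ℕ → List (ℕ × ℕ) := fun w => if w < D.TL.length then
    (0, idx (Dat.ctl (wn w))) ::
      D.KL.flatMap (fun k => (List.range D.d).map (fun j => (j, idx (Dat.cell (wn w) k j))))
    else []
  let len0 : ℕ → Sym Γ Λ σ → ℕ := fun w s =>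
    match s with
    | .inl _ => 1
    | .inr z => ((nxt D.m (wn w)).stk z.1).length
  let len : ℕ → ℕ → ℕ := fun w s =>
    if w < D.TL.length ∧ s < SL.length then len0 w (sym s) else 0
  let ok : ℕ → ℕ → ℕ → Bool := fun w s r =>
    if w < D.TL.length ∧ s < SL.length ∧ r < len w s then decide (Hd (nxt D.m (wn w)) r (sym s))
    else false
  let sh0 : Sym Γ Λ σ → ℕ := fun s =>
    match s with
    | .inl _ => 1
    | .inr _ => D.d
  let sh : ℕ → ℕ := fun s => if s < SL.length then sh0 (sym s) else 0
  let tab0 : Sym Γ Λ σ → Bool → Bool → Bool → Prop := fun s b1 b2 b3 =>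
    match s with
    | .inl q => b1 = true ∧ (some D.main, D.v₀) = q
    | .inr z => if z.1 = D.k₀ then D.s0 (if b2 then some b3 else none) = .inr z else z.2 = none
  let tab : ℕ → Bool → Bool → Bool → Bool := fun s b1 b2 b3 =>
    if s < SL.length then decide (tab0 (sym s) b1 b2 b3) else false
  let PL : List (ℕ × ℕ) :=
    (List.range D.TL.length).flatMap (fun w => (List.range SL.length).map (fun s => (w, s)))
  have hPL : ∀ w s, (w, s) ∈ PL ↔ w < D.TL.length ∧ s < SL.length := by
    intro w s; simp [PL]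
  let B : ℕ := D.d + 1 + (PL.map (fun p => len p.1 p.2)).sum
  have hB : ∀ w s, len w s ≤ B := by
    intro w s
    by_cases h : w < D.TL.length ∧ s < SL.length
    · have : len w s ≤ (PL.map (fun p => len p.1 p.2)).sum :=
        List.single_le_sum (by simp) _ (List.mem_map.2 ⟨(w, s), (hPL w s).2 h, rfl⟩)
      omega
    · simp [len, h]
  have hprem : ∀ w < D.TL.length, ∀ e, e ∈ prem w ↔ e = (0, idx (Dat.ctl (wn w))) ∨
      ∃ k, ∃ j < D.d, e = (j, idx (Dat.cell (wn w) k j)) := by
    intro w hw e
    simp only [prem, if_pos hw, List.mem_cons, List.mem_flatMap, List.mem_map, List.mem_range,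
      D.hKL, true_and, eq_comm]
  let Y : Sys :=
    { S := SL.length, W := D.TL.length, D := B, prem := prem, len := len, ok := ok, sh := sh,
      tab := tab
      prem_bd := by
        intro w e he
        by_cases hw : w < D.TL.length
        · rcases (hprem w hw e).1 he with rfl | ⟨k, j, hj, rfl⟩
          · exact ⟨by simp only [B]; omega, (hidx _ (hctl _ (hwn w hw))).1⟩
          · exact ⟨by simp only [B]; omega, (hidx _ (hcell _ (hwn w hw) k j)).1⟩
        · simp [prem, hw] at he
      len_bd := hB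
      sh_bd := by
        intro s
        simp only [sh, sh0, B]
        split_ifs
        · split <;> omega
        · omega
      pt_prem := pt_of_finite (List.range D.TL.length) [] _ (fun w hw => by
        simp only [List.mem_range] at hw
        simp only [prem, if_neg hw])
      pt_len := pt_of_finite PL 0 _ (fun p hp => by
        rw [hPL] at hp
        simp only [len, if_neg hp])
      pt_ok := pt_of_finite (PL.flatMap (fun p => (List.range B).map (fun r => (p.1, p.2, r))))
        false _ (fun p hp => by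
          simp only [ok]
          rw [if_neg]
          rintro ⟨h1, h2, h3⟩
          apply hp
          simp only [List.mem_flatMap, List.mem_map, List.mem_range]
          exact ⟨(p.1, p.2.1), (hPL _ _).2 ⟨h1, h2⟩, p.2.2, h3.trans_le (hB _ _), rfl⟩)
      pt_sh := pt_of_finite (List.range SL.length) 0 _ (fun s hs => by
        simp only [List.mem_range] at hs
        simp only [sh, if_neg hs])
      pt_tab := pt_of_finite ((List.range SL.length).flatMap (fun s => [false, true].flatMap
        (fun b1 => [false, true].flatMap (fun b2 => [false, true].map (fun b3 => (s, b1, b2, b3))))))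
        false _ (fun p hp => by
          simp only [tab]
          rw [if_neg]
          intro h1
          apply hp
          obtain ⟨s, b1, b2, b3⟩ := p
          simp only [List.mem_flatMap, List.mem_map, List.mem_range]
          exact ⟨s, h1, b1, by cases b1 <;> simp, b2, by cases b2 <;> simp, b3,
            by cases b3 <;> simp, rfl⟩) }
  have hgood : (.inr ⟨D.k₁, some D.bad⟩ : Sym Γ Λ σ) ∈ SL :=
    List.mem_append_right _ (List.mem_map_of_mem ((D.hOL _).2
      (by intro γ hγ; cases hγ; exact D.hbad)))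
  refine ⟨Y, idx (.inr ⟨D.k₁, some D.bad⟩), (hidx _ hgood).1, fun x =>
    ⟨fun t i s => Hd ((nxt D.m)^[t] (D.c0 x)) i (sym s), ⟨?_, ?_, ?_⟩, fun T => ?_⟩⟩
  · intro s hs i
    change s < SL.length at hs
    simp only [Y, tab, if_pos hs, decide_eq_true_eq, Function.iterate_zero, id]
    cases sym s with
    | inl q => simp [Hd, tab0, Dat.c0]
    | inr z =>
      obtain ⟨k, o⟩ := z
      rw [hd_inr]
      simp only [tab0]
      by_cases hk : k = D.k₀
      · subst hk
        rw [if_pos rfl, D.cell_c0]
        by_cases hi : i < x.length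
        · simp [hi]
        · simp [hi]
      · rw [if_neg hk, D.cell_c0_ne x hk]
        simp [eq_comm]
  · intro t w hw hp s hs i
    change w < D.TL.length at hw
    change s < SL.length at hs
    set c := (nxt D.m)^[t] (D.c0 x) with hc
    have hwin : wn w = win D.d c := by
      obtain ⟨hlen, -⟩ := (D.hTL _).1 (hwn w hw)
      have e1 := hp _ ((hprem w hw _).2 (Or.inl rfl))
      have e2 := fun k j hj => hp _ ((hprem w hw _).2 (Or.inr ⟨k, j, hj, rfl⟩))
      simp only [(hidx _ (hctl _ (hwn w hw))).2, (hidx _ (hcell _ (hwn w hw) _ _)).2] at e1 e2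
      generalize wn w = c' at hlen e1 e2
      obtain ⟨l, v, S⟩ := c'
      simp only [Dat.ctl, Hd, Prod.mk.injEq, Dat.cell, true_and] at e1 e2 hlen
      simp only [win, TM2.Cfg.mk.injEq]
      refine ⟨e1.1.symm, e1.2.symm, funext fun k => List.ext_getElem? fun i => ?_⟩
      by_cases hi : i < D.d
      · rw [List.getElem?_take, if_pos hi, e2 k i hi]
      · rw [List.getElem?_take, if_neg hi, List.getElem?_eq_none ((hlen k).trans (not_lt.1 hi))]
    rw [Function.iterate_succ_apply', ← hc]
    simp only [Y, ok, sh, len, hw, hs, true_and, if_true, len0, sh0, hwin]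
    cases sym s with
    | inl q =>
      have h1 := D.ctl_nxt c
      simp only [Dat.ctl, Sum.inl.injEq] at h1
      simp only [Hd, h1]
      by_cases hi : i < 1
      · simp [hi]
      · simp only [hi, if_false]
        constructor
        · rintro ⟨h, -⟩; omega
        · rintro ⟨h, -⟩; omega
    | inr z =>
      simp only
      by_cases hi : i < ((nxt D.m (win D.d c)).stk z.1).length
      · simp only [hi, if_true, decide_eq_true_eq, hd_inr, D.cell_nxt_lt c z.1 hi]
      · simp only [hi, if_false]
        obtain ⟨j, rfl⟩ := Nat.exists_eq_add_of_le (not_lt.1 hi)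
        simp only [Hd, D.stk_nxt_ge, Nat.add_sub_cancel_left, add_comm j]
  · intro t
    set c := (nxt D.m)^[t] (D.c0 x) with hc
    have hw := D.win_mem (D.over_iter x t)
    rw [← hc] at hw
    obtain ⟨w, hw', hw''⟩ := List.getElem_of_mem hw
    have hwin : wn w = win D.d c := by
      simp only [wn]
      rw [List.getD_eq_getElem _ _ hw', hw'']
    refine ⟨w, hw', fun e he => ?_⟩
    rcases (hprem w hw' e).1 he with rfl | ⟨k, j, hj, rfl⟩
    · simp only [(hidx _ (hctl _ (hwn w hw'))).2]
      rw [hwin]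
      exact ⟨rfl, rfl⟩
    · simp only [(hidx _ (hcell _ (hwn w hw') _ _)).2]
      rw [hwin, D.cell_win c k hj]
      rfl
  · simp only [(hidx _ hgood).2]
    rfl

theorem exists_sys_of_machine {L : List Bool → Bool}
    (M : TM2ComputableInTime (id : List Bool → List Bool) Computability.encodeBool L) :
    ∃ (Y : Sys) (s₀ : ℕ), s₀ < Y.S ∧ ∀ x : List Bool, ∃ H, Y.Valid x H ∧
      ∀ T, M.time x.length ≤ T → (H T 0 s₀ ↔ L x = true) := by
  obtain ⟨D, hm, hk₀, hk₁, hmain, hv, hi, hbad⟩ :=
    exists_dat M.tm M.inputAlphabet.symm (M.outputAlphabet.symm true)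
  obtain ⟨m, k₀, k₁, main, v₀, i₀, bad, d, hd, A, hA, hi', hbad', KL, hKL, TL, hTL, OL, hOL, code,
    hcode⟩ := D
  simp only at hm hk₀ hk₁ hmain hv hi hbad
  subst hm hk₀ hk₁ hmain hv
  obtain rfl := eq_of_heq hi
  obtain rfl := eq_of_heq hbad
  set D : Dat M.tm.Γ M.tm.Λ M.tm.σ := ⟨M.tm.m, M.tm.k₀, M.tm.k₁, M.tm.main, M.tm.initialState,
    M.inputAlphabet.symm, M.outputAlphabet.symm true, d, hd, A, hA, hi', hbad', KL, hKL, TL, hTL,
    OL, hOL, code, hcode⟩ with hD
  obtain ⟨Y, s₀, hs₀, hY⟩ := exists_sys D M.inputAlphabet.symm.injective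
  refine ⟨Y, s₀, hs₀, fun x => ?_⟩
  obtain ⟨H, hH, hT⟩ := hY x
  refine ⟨H, hH, fun T h3 => ?_⟩
  rw [hT]
  obtain ⟨⟨n, hn⟩, hn'⟩ := M.outputsFun x
  simp only [id] at hn'
  have h1 := nxt_iter_of_steps M.tm.m n _ _ hn
  have h2 : D.c0 x = initList M.tm (List.map M.inputAlphabet.invFun (id x)) := by
    simp only [Dat.c0, initList, hD]
    congr 1
    funext k
    by_cases hk : k = M.tm.k₀
    · subst hk
      rw [dif_pos rfl]
      exact Function.update_self (β := fun k => List (M.tm.Γ k)) ..
    · rw [dif_neg hk]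
      exact Function.update_of_ne (β := fun k => List (M.tm.Γ k)) hk _ _
  obtain ⟨e, he⟩ := Nat.exists_eq_add_of_le (hn'.trans h3)
  rw [h2, he, add_comm, Function.iterate_add_apply]
  change (((nxt M.tm.m)^[e] ((nxt M.tm.m)^[n] _)).stk M.tm.k₁)[0]? =
    some (M.outputAlphabet.symm true) ↔ _
  rw [h1, nxt_iter_halt _ rfl]
  simp only [haltList, Computability.encodeBool]
  cases L x <;> simp

end Pool.Agent.MP_8c4891_lc
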