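import Pool.Agent.MP_8c4891_lc.Transfer
import Pool.Agent.MP_8c4891_lc.Machine

/-! Annihilation is hard for exponential time. -/

namespace Pool.Agent.MP_8c4891_lc

open Pool.Agent.MP_2e8011_lc Cq Vx

/-- The data describing a position. -/
abbrev Dt : Type := List (List Bool) × List (List (List Bool)) × List (List Bool)

theorem agree_dt : Agree Dt :=
  agree_prod (agree_list (agree_list agree_bool))
    (agree_prod (agree_list (agree_list (agree_list agree_bool)))
      (agree_list (agree_list agree_bool)))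

/-- The data of a position. -/
def Position.data (P : Position) : Dt :=
  (List.ofFn fun u => List.ofFn fun v => P.G u v,
    List.ofFn fun i => List.ofFn fun u => List.ofFn fun v => P.E i u v,
    List.ofFn fun i => List.ofFn fun u => decide (P.place u = some i))

theorem Position.code_eq (P : Position) : P.code = enc P.data := agree_dt _

/-- Number of a node. -/
def numN (a : Nd) : ℕ := Nat.pair a.1 (Nat.pair a.2.1 (Nat.pair a.2.2.1 (Nat.pair a.2.2.2.1 a.2.2.2.2)))

theorem numN_injective : Function.Injective numN := by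
  rintro ⟨a1, a2, a3, a4, a5⟩ ⟨b1, b2, b3, b4, b5⟩ h
  simpa [numN] using h

/-- Number of a bit. -/
def bn (b : Bool) : ℕ := bif b then 1 else 0

theorem bn_inj {a b : Bool} : bn a = bn b ↔ a = b := by
  cases a <;> cases b <;> simp [bn]

/-- Number of a cell vertex. -/
def numQ : Cq → ℕ
  | R b => Nat.pair 0 (bn b)
  | T b => Nat.pair 1 (bn b)
  | H j => Nat.pair 2 j

theorem numQ_injective : Function.Injective numQ := by
  intro a b h
  cases a <;> cases b <;> simp_all [numQ, bn_inj]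

/-- Number of a vertex. -/
def numV : Vx Nd → ℕ
  | N a p => Nat.pair 0 (Nat.pair (numN a) (bn p))
  | W1 c b a p => Nat.pair 1 (Nat.pair c (Nat.pair (bn b) (Nat.pair (numN a) (bn p))))
  | W2 c b a p => Nat.pair 2 (Nat.pair c (Nat.pair (bn b) (Nat.pair (numN a) (bn p))))
  | K j => Nat.pair 3 j
  | X c q => Nat.pair 4 (Nat.pair c (numQ q))

theorem numV_injective : Function.Injective numV := by
  intro a b h
  cases a <;> cases b <;>
    simp_all [numV, bn_inj, numN_injective.eq_iff, numQ_injective.eq_iff]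

instance : Enc Cq := ⟨fun q => enc (numQ q), fun _ _ h => numQ_injective (Enc.inj h)⟩

instance : Enc (Vx Nd) := ⟨fun v => enc (numV v), fun _ _ h => numV_injective (Enc.inj h)⟩

instance : Inhabited Cq := ⟨H 0⟩

instance : Inhabited (Vx Nd) := ⟨K 0⟩

section PT

variable {α : Type} [Enc α]

@[fun_prop] theorem pt_bn {f : α → Bool} (hf : PT f) : PT (fun a => bn (f a)) := by
  unfold bn; fun_prop

@[fun_prop] theorem pt_numN {f : α → Nd} (hf : PT f) : PT (fun a => numN (f a)) := by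
  unfold numN; fun_prop

@[fun_prop] theorem pt_numQ {f : α → Cq} (hf : PT f) : PT (fun a => numQ (f a)) := hf

@[fun_prop] theorem pt_numV {f : α → Vx Nd} (hf : PT f) : PT (fun a => numV (f a)) := hf

@[fun_prop] theorem pt_R {f : α → Bool} (hf : PT f) : PT (fun a => R (f a)) :=
  (by fun_prop : PT (fun a => Nat.pair 0 (bn (f a))))

@[fun_prop] theorem pt_T {f : α → Bool} (hf : PT f) : PT (fun a => T (f a)) :=
  (by fun_prop : PT (fun a => Nat.pair 1 (bn (f a))))

@[fun_prop] theorem pt_H {f : α → ℕ} (hf : PT f) : PT (fun a => H (f a)) :=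
  (by fun_prop : PT (fun a => Nat.pair 2 (f a)))

@[fun_prop] theorem pt_N {f : α → Nd} {p : α → Bool} (hf : PT f) (hp : PT p) :
    PT (fun a => (N (f a) (p a) : Vx Nd)) :=
  (by fun_prop : PT (fun a => Nat.pair 0 (Nat.pair (numN (f a)) (bn (p a)))))

@[fun_prop] theorem pt_W1 {c : α → ℕ} {b : α → Bool} {f : α → Nd} {p : α → Bool} (hc : PT c)
    (hb : PT b) (hf : PT f) (hp : PT p) : PT (fun a => (W1 (c a) (b a) (f a) (p a) : Vx Nd)) :=
  (by fun_prop : PT (fun a => Nat.pair 1 (Nat.pair (c a) (Nat.pair (bn (b a))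
    (Nat.pair (numN (f a)) (bn (p a)))))))

@[fun_prop] theorem pt_W2 {c : α → ℕ} {b : α → Bool} {f : α → Nd} {p : α → Bool} (hc : PT c)
    (hb : PT b) (hf : PT f) (hp : PT p) : PT (fun a => (W2 (c a) (b a) (f a) (p a) : Vx Nd)) :=
  (by fun_prop : PT (fun a => Nat.pair 2 (Nat.pair (c a) (Nat.pair (bn (b a))
    (Nat.pair (numN (f a)) (bn (p a)))))))

@[fun_prop] theorem pt_K {f : α → ℕ} (hf : PT f) : PT (fun a => (K (f a) : Vx Nd)) :=
  (by fun_prop : PT (fun a => Nat.pair 3 (f a)))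

@[fun_prop] theorem pt_X {c : α → ℕ} {q : α → Cq} (hc : PT c) (hq : PT q) :
    PT (fun a => (X (c a) (q a) : Vx Nd)) :=
  (by fun_prop : PT (fun a => Nat.pair 4 (Nat.pair (c a) (numQ (q a)))))

@[fun_prop] theorem pt_ks {m e : α → ℕ} (hm : PT m) (he : PT e) :
    PT (fun a => (ks (m a) (e a) : List (Vx Nd))) := by
  unfold ks; fun_prop

@[fun_prop] theorem pt_fin {f : α → Bool} (hf : PT f) : PT (fun a => fin (f a)) := by
  unfold fin; fun_prop

variable (Y : Sys)

@[fun_prop] theorem pt_prem {f : α → ℕ} (hf : PT f) : PT (fun a => Y.prem (f a)) :=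
  Y.pt_prem.comp hf

@[fun_prop] theorem pt_sh {f : α → ℕ} (hf : PT f) : PT (fun a => Y.sh (f a)) :=
  Y.pt_sh.comp hf

@[fun_prop] theorem pt_len {f g : α → ℕ} (hf : PT f) (hg : PT g) :
    PT (fun a => Y.len (f a) (g a)) := Y.pt_len.comp (hf.prodMk hg)

@[fun_prop] theorem pt_ok {f g h : α → ℕ} (hf : PT f) (hg : PT g) (hh : PT h) :
    PT (fun a => Y.ok (f a) (g a) (h a)) := Y.pt_ok.comp (hf.prodMk (hg.prodMk hh))

@[fun_prop] theorem pt_tab {f : α → ℕ} {g h k : α → Bool} (hf : PT f) (hg : PT g) (hh : PT h)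
    (hk : PT k) : PT (fun a => Y.tab (f a) (g a) (h a) (k a)) :=
  Y.pt_tab.comp (hf.prodMk (hg.prodMk (hh.prodMk hk)))

@[fun_prop] theorem pt_pl {x : α → List Bool} {m₁ m₂ : α → ℕ} {f : α → Nd} (hx : PT x)
    (h₁ : PT m₁) (h₂ : PT m₂) (hf : PT f) : PT (fun a => Y.pl (x a) (m₁ a) (m₂ a) (f a)) := by
  unfold Sys.pl; fun_prop

@[fun_prop] theorem pt_fl {x : α → List Bool} {m₁ m₂ : α → ℕ} {f : α → Nd} (hx : PT x)
    (h₁ : PT m₁) (h₂ : PT m₂) (hf : PT f) : PT (fun a => Y.fl (x a) (m₁ a) (m₂ a) (f a)) := by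
  unfold Sys.fl; fun_prop

end PT

/-- The nodes that matter. -/
def Sys.nodes (Y : Sys) (x : List Bool) (m₁ m₂ : ℕ) : List Nd :=
  (List.range 10).flatMap fun a => (List.range (Y.S + 1)).flatMap fun s =>
    (List.range (Y.W + 1)).flatMap fun w => (List.range (x.length + Y.D + 2)).flatMap fun r =>
      (List.range (m₁ + m₂ + 1)).map fun j => (a, s, w, r, j)

theorem Sys.mem_nodes {Y : Sys} {x : List Bool} {m₁ m₂ : ℕ} {a : Nd} :
    a ∈ Y.nodes x m₁ m₂ ↔ a.1 < 10 ∧ a.2.1 ≤ Y.S ∧ a.2.2.1 ≤ Y.W ∧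
      a.2.2.2.1 ≤ x.length + Y.D + 1 ∧ a.2.2.2.2 ≤ m₁ + m₂ := by
  obtain ⟨a, s, w, r, j⟩ := a
  simp only [Sys.nodes, List.mem_flatMap, List.mem_map, List.mem_range, Prod.mk.injEq]
  constructor
  · rintro ⟨a, h1, s, h2, w, h3, r, h4, j, h5, rfl, rfl, rfl, rfl, rfl⟩
    omega
  · rintro ⟨h1, h2, h3, h4, h5⟩
    exact ⟨a, h1, s, by omega, w, by omega, r, by omega, j, by omega, rfl, rfl, rfl, rfl, rfl⟩

theorem Sys.pl_closed {Y : Sys} {x : List Bool} {m₁ m₂ : ℕ} : ∀ a ∈ Y.nodes x m₁ m₂,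
    ∀ a' ∈ (Y.ap x m₁ m₂).pl a, a' ∈ Y.nodes x m₁ m₂ := by
  intro a ha a' ha'
  rw [Sys.mem_nodes] at ha ⊢
  obtain ⟨t, s, w, r, j⟩ := a
  have h1 := Y.sh_bd s
  have h2 := Y.prem_bd w
  have hf : ∀ b, fin b = (8, 0, 0, 0, 0) ∨ fin b = (9, 0, 0, 0, 0) := by
    intro b; cases b <;> simp [fin]
  simp only at ha
  obtain ⟨ht, ha⟩ := ha
  simp only [Sys.ap, Sys.pl] at ha'
  interval_cases t <;>
    simp only [OfNat.ofNat_ne_zero, OfNat.ofNat_ne_one, Nat.reduceEqDiff, if_false, if_true,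
      List.mem_map, List.mem_range, List.not_mem_nil, zero_ne_one, one_ne_zero,
      OfNat.zero_ne_ofNat, OfNat.one_ne_ofNat] at ha'
  · split_ifs at ha' <;> simp only [List.mem_singleton, List.not_mem_nil] at ha'
    subst ha'; simp only; omega
  · obtain ⟨e, he, rfl⟩ := ha'; simp only; omega
  · split_ifs at ha' <;> simp only [List.mem_singleton, List.not_mem_nil] at ha' <;>
      subst ha' <;> simp only <;> omega
  · obtain ⟨e, he, rfl⟩ := ha'; have := h2 e he; simp only; omega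
  · simp only [List.mem_cons, List.not_mem_nil, or_false] at ha'
    rcases ha' with rfl | rfl <;> simp only <;> omega
  · split_ifs at ha' <;> simp only [List.mem_singleton, List.not_mem_nil] at ha' <;>
      subst ha' <;> simp only <;> omega
  · split_ifs at ha' <;> simp only [List.mem_singleton, List.not_mem_nil] at ha'
    subst ha'; simp only; omega
  · split_ifs at ha' <;> simp only [List.mem_singleton, List.not_mem_nil] at ha' <;>
      subst ha' <;> rcases hf _ with h | h <;> rw [h] <;> simp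

theorem Sys.fl_closed {Y : Sys} {x : List Bool} {m₁ m₂ : ℕ} : ∀ a ∈ Y.nodes x m₁ m₂,
    ∀ f ∈ (Y.ap x m₁ m₂).fl a, f.2.2 ∈ Y.nodes x m₁ m₂ := by
  intro a ha f hf
  rw [Sys.mem_nodes] at ha ⊢
  have h1 := Y.len_bd a.2.2.1 a.2.1
  simp only [Sys.ap, Sys.fl] at hf
  split_ifs at hf <;> simp only [List.mem_cons, List.not_mem_nil, or_false] at hf <;>
    rcases hf with rfl | rfl <;> simp only <;> omega

section build

variable (A : AP Nd) (nodes : List Nd) (a₀ : Nd) (m₁ : ℕ)

/-- The numbered edges. -/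
def edges (i : Bool) : List (ℕ × ℕ) :=
  (verts A nodes).flatMap fun u => (if i then out1 u else out0 A u).map fun v => (numV u, numV v)

/-- The number of vertices. -/
def size : ℕ := ((verts A nodes).flatMap fun u => List.range (numV u)).length + 1

/-- The numbered tokens. -/
def toks (i : Bool) : List ℕ :=
  if i then (List.range A.m).map fun c => numV (X c (R (decide (c < m₁)))) else [numV (N a₀ true)]

theorem lt_size {u : Vx Nd} (hu : u ∈ verts A nodes) : numV u < size A nodes := by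
  rw [size, List.length_flatMap]
  have : numV u ≤ ((verts A nodes).map fun u => (List.range (numV u)).length).sum :=
    List.single_le_sum (by simp) _ (List.mem_map.2 ⟨u, hu, by simp⟩)
  omega

theorem mem_edges {i : Bool} {u v : ℕ} : (u, v) ∈ edges A nodes i ↔
    ∃ a b, a ∈ verts A nodes ∧ Edge A i a b ∧ numV a = u ∧ numV b = v := by
  simp only [edges, List.mem_flatMap, List.mem_map, Prod.mk.injEq, Edge]
  constructor
  · rintro ⟨a, h1, b, h2, h3⟩
    exact ⟨a, b, h1, h2, h3⟩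
  · rintro ⟨a, b, h1, h2, h3⟩
    exact ⟨a, h1, b, h2, h3⟩

theorem not_mem_edges (i : Bool) (u : ℕ) : (u, u) ∉ edges A nodes i := by
  rw [mem_edges]
  rintro ⟨a, b, -, h, h1, h2⟩
  obtain rfl := numV_injective (h1.trans h2.symm)
  exact edge_irrefl i a h

/-- The initial placement. -/
def p0 : Vx Nd → Option Bool := place (some (N a₀ true)) (rest A.m fun c => decide (c < m₁))

/-- The position. -/
noncomputable def mkPos : Position where
  n := size A nodes
  t := 2
  two_le := le_rfl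
  G u v := decide ((u.1, v.1) ∈ edges A nodes false) || decide ((u.1, v.1) ∈ edges A nodes true)
  loopless u := by simp [not_mem_edges]
  E i u v := decide ((u.1, v.1) ∈ edges A nodes (decide (i = 1)))
  sub i u v h := by
    fin_cases i <;> simp_all
  place := push numV (· ∈ verts A nodes) _ (p0 A a₀ m₁)

variable {A nodes a₀ m₁}

theorem p0_eq_some {v : Vx Nd} {i : Bool} : p0 A a₀ m₁ v = some i ↔
    (i = false ∧ v = N a₀ true) ∨ (i = true ∧ ∃ c < A.m, v = X c (R (decide (c < m₁)))) := by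
  cases v with
  | X c q =>
    simp only [p0, place, rest]
    by_cases hc : c < A.m
    · cases i <;> simp [hc, eq_comm]
    · cases i <;> simp [hc]
  | N a p => cases i <;> simp [p0, place, eq_comm]
  | _ => simp [p0, place]

theorem p0_mem (ha : a₀ ∈ nodes) {v : Vx Nd} {i : Bool} (h : p0 A a₀ m₁ v = some i) :
    v ∈ verts A nodes := by
  rcases p0_eq_some.1 h with ⟨-, rfl⟩ | ⟨-, c, hc, rfl⟩
  · exact N_mem.2 ha
  · exact R_mem.2 hc

theorem mkPos_won (h1 : ∀ a, ∀ f ∈ A.fl a, f.1 < A.m)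
    (h2 : ∀ a ∈ nodes, ∀ a' ∈ A.pl a, a' ∈ nodes) (h3 : ∀ a ∈ nodes, ∀ f ∈ A.fl a, f.2.2 ∈ nodes)
    (ha : a₀ ∈ nodes) {r : Bool} (h : Res A r a₀ fun c => decide (c < m₁)) :
    (mkPos A nodes a₀ m₁).Won r := by
  refine transfer numV_injective (E := Edge A) (verts_closed h1 h2 h3)
    (fun a ha => lt_size A nodes ha) (fun i u v => ?_) (simulate' h1 h) (fun a i => p0_mem ha)
  rw [← mem_edges]
  cases i <;> simp [mkPos, ty]

theorem ofFn_val {β : Type} (n : ℕ) (g : ℕ → β) :
    (List.ofFn fun u : Fin n => g u.1) = (List.range n).map g := by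
  rw [List.ofFn_eq_map, ← List.map_coe_finRange_eq_range, List.map_map]
  rfl

/-- The data of the position as an explicit function. -/
def mkDt (n : ℕ) (e0 e1 : List (ℕ × ℕ)) (t0 t1 : List ℕ) : Dt :=
  ((List.range n).map fun u => (List.range n).map fun v =>
      decide ((u, v) ∈ e0) || decide ((u, v) ∈ e1),
    [(List.range n).map fun u => (List.range n).map fun v => decide ((u, v) ∈ e0),
      (List.range n).map fun u => (List.range n).map fun v => decide ((u, v) ∈ e1)],
    [(List.range n).map fun u => decide (u ∈ t0), (List.range n).map fun u => decide (u ∈ t1)])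

theorem mkPos_data (ha : a₀ ∈ nodes) : (mkPos A nodes a₀ m₁).data =
    mkDt (size A nodes) (edges A nodes false) (edges A nodes true) (toks A a₀ m₁ false)
      (toks A a₀ m₁ true) := by
  have key : ∀ (i : Bool) (u : Fin (size A nodes)),
      push numV (· ∈ verts A nodes) _ (p0 A a₀ m₁) u = some (ty i) ↔ u.1 ∈ toks A a₀ m₁ i := by
    intro i u
    rw [push_eq_some numV_injective]
    constructor
    · rintro ⟨a, -, h1, h2⟩
      rcases p0_eq_some.1 h2 with ⟨rfl, rfl⟩ | ⟨rfl, c, hc, rfl⟩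
      · simp [toks, h1]
      · simp only [toks, if_true, List.mem_map, List.mem_range]
        exact ⟨c, hc, h1⟩
    · intro h
      cases i with
      | false =>
        simp only [toks, Bool.false_eq_true, if_false, List.mem_singleton] at h
        exact ⟨_, N_mem.2 ha, h.symm, p0_eq_some.2 (Or.inl ⟨rfl, rfl⟩)⟩
      | true =>
        simp only [toks, if_true, List.mem_map, List.mem_range] at h
        obtain ⟨c, hc, h⟩ := h
        exact ⟨_, R_mem.2 hc, h, p0_eq_some.2 (Or.inr ⟨rfl, c, hc, rfl⟩)⟩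
  have k0 := key false
  have k1 := key true
  simp only [ty, Bool.false_eq_true, if_false, if_true] at k0 k1
  simp only [Position.data, mkPos, mkDt, ← ofFn_val, List.ofFn_succ, List.ofFn_zero,
    Fin.succ_zero_eq_one, k0, k1]
  rfl

end build

section PT2

variable {α : Type} [Enc α] (Y : Sys) {x : α → List Bool} {m₁ m₂ : α → ℕ}

theorem pt_tbl (hx : PT x) (h₁ : PT m₁) (h₂ : PT m₂) :
    PT (fun a => (verts (Y.ap (x a) (m₁ a) (m₂ a)) (Y.nodes (x a) (m₁ a) (m₂ a))).map
      (fun u => (u, out0 (Y.ap (x a) (m₁ a) (m₂ a)) u, out1 u))) := by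
  have hn : PT (fun a => Y.nodes (x a) (m₁ a) (m₂ a)) := by
    unfold Sys.nodes; fun_prop
  simp only [verts, List.map_append, List.map_flatMap, List.map_map, List.map_cons, List.map_nil,
    Function.comp_def, out0, out1, outc, Sys.ap]
  fun_prop

theorem pt_mkDt {n : α → ℕ} {e0 e1 : α → List (ℕ × ℕ)} {t0 t1 : α → List ℕ} (hn : PT n)
    (h0 : PT e0) (h1 : PT e1) (k0 : PT t0) (k1 : PT t1) :
    PT (fun a => mkDt (n a) (e0 a) (e1 a) (t0 a) (t1 a)) := by
  unfold mkDt
  fun_prop

theorem pt_of_tbl {tb : α → List (Vx Nd × List (Vx Nd) × List (Vx Nd))} (ht : PT tb) :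
    PT (fun a => ((tb a).flatMap fun e => List.range (numV e.1)).length + 1) ∧
    PT (fun a => (tb a).flatMap fun e => e.2.1.map fun v => (numV e.1, numV v)) ∧
    PT (fun a => (tb a).flatMap fun e => e.2.2.map fun v => (numV e.1, numV v)) :=
  ⟨by fun_prop, by fun_prop, by fun_prop⟩

theorem pt_data (hx : PT x) (h₁ : PT m₁) (h₂ : PT m₂) (a₀ : Nd) :
    PT (fun a => mkDt (size (Y.ap (x a) (m₁ a) (m₂ a)) (Y.nodes (x a) (m₁ a) (m₂ a)))
      (edges (Y.ap (x a) (m₁ a) (m₂ a)) (Y.nodes (x a) (m₁ a) (m₂ a)) false)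
      (edges (Y.ap (x a) (m₁ a) (m₂ a)) (Y.nodes (x a) (m₁ a) (m₂ a)) true)
      (toks (Y.ap (x a) (m₁ a) (m₂ a)) a₀ (m₁ a) false)
      (toks (Y.ap (x a) (m₁ a) (m₂ a)) a₀ (m₁ a) true)) := by
  obtain ⟨hs, h0, h1⟩ := pt_of_tbl (pt_tbl Y hx h₁ h₂)
  refine pt_mkDt (hs.congr fun a => ?_) (h0.congr fun a => ?_) (h1.congr fun a => ?_) ?_ ?_
  · simp only [size, List.flatMap_map]
  · simp only [edges, List.flatMap_map, Bool.false_eq_true, if_false]
  · simp only [edges, List.flatMap_map, if_true]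
  · simp only [toks, Bool.false_eq_true, if_false]; fun_prop
  · simp only [toks, if_true, Sys.ap]; fun_prop

end PT2

theorem valB_ones (m₁ : ℕ) (k : ℕ) : ∀ o, o + k ≤ m₁ →
    valB false (fun c => decide (c < m₁)) o k = 0 := by
  induction k with
  | zero => intro o _; rfl
  | succ k ih =>
    intro o h
    rw [valB, ih (o + 1) (by omega), if_neg (by simp; omega)]

theorem valB_zeros (m₁ : ℕ) (k : ℕ) : ∀ o, m₁ ≤ o →
    valB true (fun c => decide (c < m₁)) o k = 0 := by
  induction k with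
  | zero => intro o _; rfl
  | succ k ih =>
    intro o h
    rw [valB, ih (o + 1) (by omega), if_neg (by simp; omega)]

/-- Raw bit strings. -/
def Raw : Type := List Bool

/-- The bits of a raw string. -/
def Raw.bits (a : Raw) : List Bool := a

instance : Enc Raw := ⟨fun x => x, fun _ _ h => h⟩

theorem hard {L : List Bool → Bool} (hL : ExpTime id L) :
    ∃ f : List Bool → Position, Nonempty (Turing.TM2ComputableInPolyTime id Position.code f) ∧
      ∀ x, (f x).t = 2 ∧ (f x).Won (L x) := by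
  obtain ⟨M, p, hp⟩ := hL
  obtain ⟨Y, s₀, hs₀, hY⟩ := exists_sys_of_machine M
  let m₁ : List Bool → ℕ := fun x => p.eval x.length + 1
  let m₂ : List Bool → ℕ := fun x => m₁ x + Y.D
  have ha : ∀ x, ((0, s₀, 0, 0, 0) : Nd) ∈ Y.nodes x (m₁ x) (m₂ x) := by
    intro x
    rw [Sys.mem_nodes]
    simp only
    omega
  refine ⟨fun x => mkPos (Y.ap x (m₁ x) (m₂ x)) (Y.nodes x (m₁ x) (m₂ x)) (0, s₀, 0, 0, 0) (m₁ x),
    ?_, fun x => ⟨rfl, ?_⟩⟩
  · have hx : PT Raw.bits := CP.toBits (α := Raw) CP.enc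
    have h1 : PT (fun a : Raw => m₁ a.bits) := by simp only [m₁]; fun_prop
    have h2 : PT (fun a : Raw => m₂ a.bits) := by simp only [m₂]; fun_prop
    obtain ⟨c, t, ⟨q, hq⟩, hc⟩ := pt_data Y hx h1 h2 (0, s₀, 0, 0, 0)
    refine polyTime_of_exec _ _ _ c q fun x => ?_
    rw [Position.code_eq, mkPos_data (ha x)]
    exact (hc x).weaken (hq x)
  · obtain ⟨H, hH, hT⟩ := hY x
    refine mkPos_won Sys.fl_lt Sys.pl_closed Sys.fl_closed (ha x) ?_
    have e1 := valB_compl (fun c => decide (c < m₁ x)) (m₁ x) 0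
    rw [valB_ones _ _ _ (by omega)] at e1
    have e2 : 2 ^ m₁ x = 2 * 2 ^ p.eval x.length := by simp only [m₁]; ring
    have e3 : 0 < 2 ^ p.eval x.length := by positivity
    have e4 : Y.D < 2 ^ Y.D := Nat.lt_two_pow_self
    refine Sys.rv_claim hH (2 ^ m₁ x - 1) (L x) s₀ 0 hs₀ ?_ (hT _ ?_) _ (by omega)
      (valB_zeros _ _ _ le_rfl)
    · simp only [m₂]
      rw [pow_add 2 (m₁ x), zero_add, mul_comm]
      exact Nat.mul_lt_mul_of_lt_of_le (by omega) e4.le (by omega)
    · have := hp x.length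
      omega

end Pool.Agent.MP_8c4891_lc
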