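import Pool.Agent.MP_8c4891_lc.Member

namespace Pool.Agent.MP_8c4891_lc

theorem Forces.excl {S : Type} {Mv : S → S → Prop} {b : Bool} {p : S} (h : Forces Mv b p) :
    ¬ Forces Mv (!b) p := by
  induction h with
  | win h1 _ ih =>
    intro h2
    cases h2 with
    | lose h3 => exact ih (h3 _ h1)
  | lose _ ih =>
    intro h2
    cases h2 with
    | win h3 h4 => exact ih _ h3 h4

open Classical in
theorem main :
    (∀ b : Bool, ExpTime Position.code (fun P => decide (P.Won b))) ∧
    ∀ L : List Bool → Bool, ExpTime id L →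
      ∃ f : List Bool → Position, Nonempty (Turing.TM2ComputableInPolyTime id Position.code f) ∧
        ∀ x, (f x).t = 2 ∧ ∀ b : Bool, (L x = b ↔ (f x).Won b) := by
  refine ⟨member, fun L hL => ?_⟩
  obtain ⟨f, hf, h⟩ := hard hL
  refine ⟨f, hf, fun x => ⟨(h x).1, fun b => ⟨fun hb => hb ▸ (h x).2, fun hb => ?_⟩⟩⟩
  by_contra hne
  have : b = !L x := by cases b <;> simpa using hne
  subst this
  exact Forces.excl (h x).2 hb

end Pool.Agent.MP_8c4891_lc
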