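import Pool.Agent.MP_8c4891_lc.Hard

/-! The outcome of Annihilation can be computed in exponential time. -/

namespace Pool.Agent.MP_8c4891_lc

open Pool.Agent.MP_2e8011_lc Turing

/-- Winning within `k` moves. -/
def ForcesIn {S : Type} (Mv : S → S → Prop) : ℕ → Bool → S → Prop
  | 0, _, _ => False
  | k + 1, true, p => ∃ q, Mv p q ∧ ForcesIn Mv k false q
  | k + 1, false, p => ∀ q, Mv p q → ForcesIn Mv k true q

section
variable {S : Type} {Mv : S → S → Prop}

theorem ForcesIn.forces (k : ℕ) : ∀ b p, ForcesIn Mv k b p → Forces Mv b p := by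
  induction k with
  | zero => intro b p h; exact h.elim
  | succ k ih =>
    intro b p h
    cases b with
    | true => obtain ⟨q, h1, h2⟩ := h; exact Forces.win h1 (ih _ _ h2)
    | false => exact Forces.lose fun q hq => ih _ _ (h q hq)

theorem ForcesIn.step {k l : ℕ} (h : ∀ b p, ForcesIn Mv k b p → ForcesIn Mv l b p) :
    ∀ b p, ForcesIn Mv (k + 1) b p → ForcesIn Mv (l + 1) b p := by
  intro b p h'
  cases b with
  | true => obtain ⟨q, h1, h2⟩ := h'; exact ⟨q, h1, h _ _ h2⟩
  | false => exact fun q hq => h _ _ (h' q hq)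

theorem ForcesIn.succ (k : ℕ) : ∀ b p, ForcesIn Mv k b p → ForcesIn Mv (k + 1) b p := by
  induction k with
  | zero => intro b p h; exact h.elim
  | succ k ih => exact ForcesIn.step ih

theorem ForcesIn.mono {k l : ℕ} (h : k ≤ l) : ∀ b p, ForcesIn Mv k b p → ForcesIn Mv l b p := by
  induction h with
  | refl => exact fun _ _ h => h
  | step _ ih => exact fun b p h => ForcesIn.succ _ b p (ih b p h)

theorem exists_stable [Fintype S] : ∃ k ≤ 2 * Fintype.card S,
    ∀ b p, ForcesIn Mv (k + 1) b p → ForcesIn Mv k b p := by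
  classical
  by_contra hcon
  push Not at hcon
  let A : ℕ → Finset (Bool × S) := fun k => Finset.univ.filter fun x => ForcesIn Mv k x.1 x.2
  have key : ∀ k ≤ 2 * Fintype.card S + 1, k ≤ (A k).card := by
    intro k
    induction k with
    | zero => intro _; exact Nat.zero_le _
    | succ k ih =>
      intro hk
      obtain ⟨b, p, h1, h2⟩ := hcon k (by omega)
      have : A k ⊂ A (k + 1) := by
        refine ⟨fun x hx => ?_, fun h => h2 ?_⟩
        · simp only [A, Finset.mem_filter, Finset.mem_univ, true_and] at hx ⊢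
          exact ForcesIn.succ k _ _ hx
        · have := @h (b, p) (by simpa [A] using h1)
          simpa [A] using this
      have := Finset.card_lt_card this
      have := ih (by omega)
      omega
  have h1 := key _ le_rfl
  have h2 := Finset.card_le_univ (A (2 * Fintype.card S + 1))
  simp only [Fintype.card_prod, Fintype.card_bool] at h2
  omega

theorem forces_iff [Fintype S] {K : ℕ} (hK : 2 * Fintype.card S ≤ K) (b : Bool) (p : S) :
    Forces Mv b p ↔ ForcesIn Mv K b p := by
  refine ⟨fun h => ?_, ForcesIn.forces K b p⟩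
  obtain ⟨k, hk, hs⟩ := exists_stable (Mv := Mv)
  refine ForcesIn.mono (hk.trans hK) b p ?_
  induction h with
  | win h1 _ ih => exact hs _ _ ⟨_, h1, ih⟩
  | lose _ ih => exact hs _ _ ih

end

/-- A placement as a list of numbers. -/
def rep {n t : ℕ} (p : Fin n → Option (Fin t)) : List ℕ :=
  List.ofFn fun u => (p u).elim 0 fun i => i.1 + 1

/-- All lists of length `n` with entries at most `t`. -/
def allL (t n : ℕ) : List (List ℕ) :=
  (fun L : List (List ℕ) => L.flatMap fun l => (List.range (t + 1)).map fun a => a :: l)^[n] [[]]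

theorem mem_allL (t n : ℕ) : ∀ l : List ℕ, l ∈ allL t n ↔ l.length = n ∧ ∀ a ∈ l, a ≤ t := by
  induction n with
  | zero => intro l; cases l <;> simp [allL]
  | succ n ih =>
    intro l
    rw [allL, Function.iterate_succ_apply', ← allL]
    simp only [List.mem_flatMap, List.mem_map, List.mem_range, ih]
    constructor
    · rintro ⟨l', ⟨h1, h2⟩, a, ha, rfl⟩
      refine ⟨by simp [h1], ?_⟩
      simp only [List.mem_cons, forall_eq_or_imp]
      exact ⟨by omega, h2⟩
    · rintro ⟨h1, h2⟩
      cases l with
      | nil => simp at h1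
      | cons a l =>
        simp only [List.mem_cons, forall_eq_or_imp] at h2
        exact ⟨l, ⟨by simpa using h1, h2.2⟩, a, by omega, rfl⟩

theorem length_allL (t n : ℕ) : (allL t n).length = (t + 1) ^ n := by
  induction n with
  | zero => rfl
  | succ n ih =>
    rw [allL, Function.iterate_succ_apply', ← allL, List.length_flatMap]
    simp [ih, pow_succ]

theorem rep_mem {n t : ℕ} (p : Fin n → Option (Fin t)) : rep p ∈ allL t n := by
  rw [mem_allL]
  refine ⟨by simp [rep], ?_⟩
  intro a ha
  simp only [rep, List.mem_ofFn] at ha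
  obtain ⟨u, rfl⟩ := ha
  cases p u with
  | none => simp
  | some i => exact i.2

theorem rep_getD {n t : ℕ} (p : Fin n → Option (Fin t)) (u : Fin n) :
    (rep p).getD u 0 = (p u).elim 0 fun i => i.1 + 1 := by
  simp [rep, List.getD_eq_getElem?_getD]

/-- The result of moving the token at `u` to `v`. -/
def mvL (n : ℕ) (l : List ℕ) (u v : ℕ) : List ℕ :=
  (List.range n).map fun w => if w = v then (if l.getD v 0 = 0 then l.getD u 0 else 0)
    else if w = u then 0 else l.getD w 0

/-- The successors of a placement. -/
def succs (n : ℕ) (Es : List (List (List Bool))) (l : List ℕ) : List (List ℕ) :=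
  (List.range n).flatMap fun u => ((List.range n).filter fun v => decide (0 < l.getD u 0) &&
    ((Es.getD (l.getD u 0 - 1) []).getD u []).getD v false).map fun v => mvL n l u v

theorem rep_move {n t : ℕ} (p : Fin n → Option (Fin t)) {u v : Fin n} {i : Fin t}
    (h : p u = some i) : mvL n (rep p) u v =
      rep (Function.update (Function.update p u none) v (if (p v).isSome then none else some i)) := by
  rw [mvL, ← ofFn_val, rep, rep]
  congr 1
  funext w
  rw [← rep]
  simp only [rep_getD, Fin.val_inj, h]
  by_cases hv : w = v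
  · subst hv
    rw [if_pos rfl, Function.update_self]
    cases p w <;> simp
  · rw [if_neg hv, Function.update_of_ne hv]
    by_cases hu : w = u
    · subst hu; simp
    · rw [if_neg hu, Function.update_of_ne hu]

theorem mem_succs (P : Position) (p : Fin P.n → Option (Fin P.t)) (l : List ℕ) :
    l ∈ succs P.n P.data.2.1 (rep p) ↔
      ∃ q, Move (fun i u v => P.E i u v = true) p q ∧ l = rep q := by
  have key : ∀ (i : Fin P.t) (u v : Fin P.n),
      ((P.data.2.1.getD i []).getD u []).getD v false = P.E i u v := by
    intro i u v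
    simp [Position.data, List.getD_eq_getElem?_getD]
  simp only [succs, List.mem_flatMap, List.mem_map, List.mem_filter, List.mem_range,
    Bool.and_eq_true, decide_eq_true_eq]
  constructor
  · rintro ⟨u, hu, v, ⟨hv, h1, h2⟩, rfl⟩
    lift u to Fin P.n using hu
    lift v to Fin P.n using hv
    rw [rep_getD] at h1 h2
    rcases hp : p u with _ | i
    · rw [hp] at h1; simp at h1
    · rw [hp] at h2
      simp only [Option.elim_some, Nat.add_sub_cancel, key] at h2
      exact ⟨_, ⟨i, u, v, hp, h2, rfl⟩, rep_move p hp⟩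
  · rintro ⟨q, ⟨i, u, v, hp, he, rfl⟩, rfl⟩
    refine ⟨u, u.2, v, ⟨v.2, ?_, ?_⟩, rep_move p hp⟩
    · rw [rep_getD, hp]; simp
    · rw [rep_getD, hp]
      simpa only [Option.elim_some, Nat.add_sub_cancel, key] using he

/-- One round of backward induction. -/
def round (n : ℕ) (Es : List (List (List Bool))) (al : List (List ℕ))
    (s : List (List ℕ) × List (List ℕ)) : List (List ℕ) × List (List ℕ) :=
  (al.filter fun l => (succs n Es l).any fun l' => decide (l' ∈ s.2),
    al.filter fun l => (succs n Es l).all fun l' => decide (l' ∈ s.1))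

theorem round_iter (P : Position) (k : ℕ) : ∀ p : Fin P.n → Option (Fin P.t),
    (rep p ∈ ((round P.n P.data.2.1 (allL P.t P.n))^[k] ([], [])).1 ↔
      ForcesIn (Move fun i u v => P.E i u v = true) k true p) ∧
    (rep p ∈ ((round P.n P.data.2.1 (allL P.t P.n))^[k] ([], [])).2 ↔
      ForcesIn (Move fun i u v => P.E i u v = true) k false p) := by
  induction k with
  | zero => intro p; simp [ForcesIn]
  | succ k ih =>
    intro p
    rw [Function.iterate_succ_apply']
    generalize (round P.n P.data.2.1 (allL P.t P.n))^[k] ([], []) = s at ih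
    simp only [round, List.mem_filter, rep_mem, true_and, List.any_eq_true, List.all_eq_true,
      decide_eq_true_eq, mem_succs, ForcesIn]
    constructor
    · constructor
      · rintro ⟨_, ⟨q, h1, rfl⟩, h2⟩
        exact ⟨q, h1, (ih q).2.1 h2⟩
      · rintro ⟨q, h1, h2⟩
        exact ⟨_, ⟨q, h1, rfl⟩, (ih q).2.2 h2⟩
    · constructor
      · intro h q h1
        exact (ih q).1.1 (h _ ⟨q, h1, rfl⟩)
      · rintro h _ ⟨q, h1, rfl⟩
        exact (ih q).1.2 (h q h1)

/-- The initial placement read off the data. -/
def initL (n t : ℕ) (tk : List (List Bool)) : List ℕ :=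
  (List.range n).map fun u =>
    (((List.range t).filter fun i => (tk.getD i []).getD u false).map fun i => i + 1).headD 0

theorem initL_eq (P : Position) : initL P.n P.t P.data.2.2 = rep P.place := by
  rw [initL, ← ofFn_val, rep]
  congr 1
  funext u
  have key : ∀ i < P.t, (P.data.2.2.getD i []).getD u false
      = decide ((P.place u).map Fin.val = some i) := by
    intro i hi
    lift i to Fin P.t using hi
    simp only [Position.data, List.getD_eq_getElem?_getD]
    rcases h : P.place u with _ | j <;> simp [Fin.val_inj, h]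
  rw [List.filter_congr (q := fun i => decide ((P.place u).map Fin.val = some i))
    (fun i hi => key i (List.mem_range.1 hi))]
  cases P.place u with
  | none => simp
  | some j =>
    have h1 : (List.range P.t).filter (fun i => decide ((some j).map Fin.val = some i))
        = [j.1] := by
      have h2 : (fun i => decide ((some j).map Fin.val = some i)) = fun i => i == j.1 := by
        funext i
        simp [eq_comm, beq_eq_decide]
      rw [h2, List.filter_beq, List.count_eq_one_of_mem List.nodup_range (by simp)]
      rfl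
    rw [h1]
    rfl

/-- The algorithm, `N` being a bound for the number of placements. -/
def alg (b : Bool) (d : Dt) (N : ℕ) : Bool :=
  decide (initL d.1.length d.2.1.length d.2.2 ∈
    (bif b then ((round d.1.length d.2.1 (allL d.2.1.length d.1.length))^[2 * N] ([], [])).1
      else ((round d.1.length d.2.1 (allL d.2.1.length d.1.length))^[2 * N] ([], [])).2))

theorem alg_iff (b : Bool) (P : Position) {N : ℕ} (hN : (P.t + 1) ^ P.n ≤ N) :
    alg b P.data N = true ↔ P.Won b := by
  have h1 : P.data.1.length = P.n := by simp [Position.data]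
  have h2 : P.data.2.1.length = P.t := by simp [Position.data]
  rw [alg, h1, h2, initL_eq, decide_eq_true_eq, Position.Won,
    forces_iff (K := 2 * N) (by simpa using hN)]
  cases b
  · exact (round_iter P _ _).2
  · exact (round_iter P _ _).1

theorem count_le (d : Dt) : (d.2.1.length + 1) ^ d.1.length ≤ 2 ^ (sz d * sz d) := by
  obtain ⟨G, Es, tk⟩ := d
  have h1 := length_le_sz G
  have h2 := length_le_sz Es
  have h3 : Es.length + 1 ≤ 2 ^ Es.length := Nat.lt_two_pow_self
  refine (Nat.pow_le_pow_left h3 _).trans ?_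
  rw [← pow_mul]
  refine Nat.pow_le_pow_right (by norm_num) (Nat.mul_le_mul ?_ ?_) <;> simp only [sz_prod] <;> omega

/-- Padded data. -/
structure Pad where
  d : Dt

instance : Enc Pad := ⟨fun a => enc (a.d, 2 ^ (sz a.d * sz a.d)), fun a b h => by
  have := Enc.inj h
  cases a; cases b
  simp only [Prod.mk.injEq] at this
  rw [this.1]⟩

theorem sz_filter_le {α : Type} [Enc α] (l : List α) (p : α → Bool) : sz (l.filter p) ≤ sz l := by
  induction l with
  | nil => simp
  | cons a l ih =>
    rw [List.filter_cons]
    split_ifs <;> simp <;> omega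

theorem pt_alg (b : Bool) : PT (fun a : Pad => alg b a.d (2 ^ (sz a.d * sz a.d))) := by
  have h0 : PT (fun a : Pad => (a.d, 2 ^ (sz a.d * sz a.d))) := CP.enc (α := Pad)
  have hd : PT (fun a : Pad => a.d) := h0.fst
  have hN : PT (fun a : Pad => 2 ^ (sz a.d * sz a.d)) := h0.snd
  have hn : PT (fun a : Pad => a.d.1.length) := by fun_prop
  have ht : PT (fun a : Pad => a.d.2.1.length) := by fun_prop
  have hall : PT (fun a : Pad => allL a.d.2.1.length a.d.1.length) := by
    refine PT.iterP (g := fun (a : Pad) (L : List (List ℕ)) =>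
      L.flatMap fun l => (List.range (a.d.2.1.length + 1)).map fun c => c :: l) (by fun_prop) hn
      (PT.const _) (B := fun a => 2 ^ (sz a.d * sz a.d) *
        (2 * (a.d.1.length * (2 * a.d.2.1.length + 1)) + 1)) (PT.pb (by fun_prop)) ?_
    intro a i hi
    rw [← allL]
    refine (sz_le_of_forall (B := a.d.1.length * (2 * a.d.2.1.length + 1)) fun l hl => ?_).trans ?_
    · rw [mem_allL] at hl
      refine (sz_le_of_forall (B := a.d.2.1.length) fun c hc => by simpa using hl.2 c hc).trans ?_
      exact Nat.mul_le_mul_right _ (by omega)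
    · refine Nat.mul_le_mul_right _ ?_
      rw [length_allL]
      exact (Nat.pow_le_pow_right (by omega) hi).trans (count_le a.d)
  have hr : PT (fun p : (ℕ × List (List (List Bool)) × List (List ℕ)) ×
      List (List ℕ) × List (List ℕ) => round p.1.1 p.1.2.1 p.1.2.2 p.2) := by
    unfold round succs mvL
    fun_prop
  have hit : PT (fun a : Pad => (round a.d.1.length a.d.2.1
      (allL a.d.2.1.length a.d.1.length))^[2 * 2 ^ (sz a.d * sz a.d)] ([], [])) := by
    refine PT.iterP (g := fun a : Pad => round a.d.1.length a.d.2.1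
      (allL a.d.2.1.length a.d.1.length)) ?_ ((PT.const 2).mul hN) (PT.const _)
      (B := fun a => 3 * sz (allL a.d.2.1.length a.d.1.length) + 1)
      (((PB.const 3).mul hall.pb_sz).add (PB.const 1)) ?_
    · have h1 : PT (fun p : Pad × List (List ℕ) × List (List ℕ) =>
          allL p.1.d.2.1.length p.1.d.1.length) := hall.comp PT.id.fst
      have h2 : PT (fun p : Pad × List (List ℕ) × List (List ℕ) => p.1.d) := hd.comp PT.id.fst
      exact hr.comp (f := fun p : Pad × List (List ℕ) × List (List ℕ) =>
        ((p.1.d.1.length, p.1.d.2.1, allL p.1.d.2.1.length p.1.d.1.length), p.2))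
        (((h2.fst.length).prodMk (h2.snd.fst.prodMk h1)).prodMk PT.id.snd)
    · intro a i _
      cases i with
      | zero => simp
      | succ i =>
        rw [Function.iterate_succ_apply', round, sz_prod]
        have h1 := sz_filter_le (allL a.d.2.1.length a.d.1.length)
        refine le_trans (Nat.add_le_add (Nat.add_le_add_right (Nat.mul_le_mul_left 2 (h1 _)) 1)
          (h1 _)) (by omega)
  have hi : PT (fun a : Pad => initL a.d.1.length a.d.2.1.length a.d.2.2) := by
    unfold initL
    fun_prop
  exact PT.mem hi (PT.cond (PT.const b) hit.fst hit.snd)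

/-- Exponentially bounded functions. -/
def EB (t : ℕ → ℕ) : Prop := ∃ q : Polynomial ℕ, ∀ n, t n ≤ 2 ^ q.eval n

theorem EB.const (c : ℕ) : EB (fun _ => c) :=
  ⟨Polynomial.C c, fun _ => by simpa using Nat.lt_two_pow_self.le⟩

theorem EB.id : EB (fun n => n) := ⟨Polynomial.X, fun _ => by simpa using Nat.lt_two_pow_self.le⟩

theorem EB.pow2 : EB (fun n => 2 ^ (n * n)) := ⟨Polynomial.X * Polynomial.X, fun _ => by simp⟩

theorem EB.mul {t u : ℕ → ℕ} (ht : EB t) (hu : EB u) : EB (fun n => t n * u n) := by
  obtain ⟨p, hp⟩ := ht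
  obtain ⟨q, hq⟩ := hu
  exact ⟨p + q, fun n => by
    rw [Polynomial.eval_add, pow_add]; exact Nat.mul_le_mul (hp n) (hq n)⟩

theorem EB.add {t u : ℕ → ℕ} (ht : EB t) (hu : EB u) : EB (fun n => t n + u n) := by
  obtain ⟨p, hp⟩ := ht
  obtain ⟨q, hq⟩ := hu
  refine ⟨p + q + 1, fun n => ?_⟩
  have h1 : 2 ^ p.eval n ≤ 2 ^ (p.eval n + q.eval n) := Nat.pow_le_pow_right (by omega) (by omega)
  have h2 : 2 ^ q.eval n ≤ 2 ^ (p.eval n + q.eval n) := Nat.pow_le_pow_right (by omega) (by omega)
  have h3 := hp n
  have h4 := hq n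
  simp only [Polynomial.eval_add, Polynomial.eval_one, pow_succ]
  omega

theorem EB.eval (p : Polynomial ℕ) {t : ℕ → ℕ} (ht : EB t) : EB (fun n => p.eval (t n)) := by
  induction p using Polynomial.induction_on' with
  | add p q hp hq => simpa using hp.add hq
  | monomial k c =>
    have : EB (fun n => t n ^ k) := by
      induction k with
      | zero => simpa using EB.const 1
      | succ k ih => simpa [pow_succ] using ih.mul ht
    simpa using (EB.const c).mul this

theorem expTime_of_exec {α : Type} (ea : α → List Bool) (f : α → Bool) (c : Cmd) (T : ℕ → ℕ)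
    (hT : EB T) (h : ∀ a, Exec c (one (ea a)) (one [f a]) (T (ea a).length)) : ExpTime ea f := by
  have key : ∀ a, ∃ n ≤ T (ea a).length,
      (flip bind (machine c).step)^[n] (some (initList (machine c) (ea a))) =
        some (haltList (machine c) [f a]) := by
    intro a
    obtain ⟨n, hn, hs⟩ := sim (N := c.bound + 1) (code (c.bound + 1) c id none) (h a)
      (Nat.le_succ _) id none (fun _ => rfl)
    refine ⟨n, hn, ?_⟩
    rw [initList_machine, haltList_machine]
    exact hs
  choose n hn hs using key
  obtain ⟨q, hq⟩ := hT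
  refine ⟨⟨⟨machine c, Equiv.refl Bool, Equiv.refl Bool⟩, T, fun a => ⟨⟨n a, ?_⟩, hn a⟩⟩, q, hq⟩
  have e1 : ∀ l : List Bool, List.map (Equiv.refl Bool).invFun l = l := fun l => List.map_id l
  have := hs a
  rw [← e1 (ea a)] at this
  exact this

open Classical in
theorem member (b : Bool) : ExpTime Position.code (fun P => decide (P.Won b)) := by
  obtain ⟨c₁, t₁, ⟨p₁, hp₁⟩, h₁⟩ : PT (fun d : Dt => (sz d * sz d, (1 : ℕ))) := by fun_prop
  obtain ⟨c₂, t₂, ⟨p₂, hp₂⟩, h₂⟩ : PT (fun n : ℕ => n + n) := by fun_prop
  obtain ⟨c₃, t₃, ⟨p₃, hp₃⟩, h₃⟩ := pt_alg b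
  refine expTime_of_exec _ _ (.seq (pairP .skip (.seq c₁ (iterP c₂))) c₃)
    (fun s => 13 * s + 9 * s + 8 * 2 ^ (s * s) + 1 + (p₁.eval s +
      ((p₂.eval (2 ^ (s * s)) + 14) * (s * s) + 14 * 1 + 8 * 2 ^ (s * s) + 20)) + 10 +
      p₃.eval (2 * s + 1 + 2 ^ (s * s))) ?_ fun P => ?_
  · refine EB.add (EB.add (EB.add (EB.add (EB.add (EB.add ((EB.const _).mul EB.id)
      ((EB.const _).mul EB.id)) ((EB.const _).mul EB.pow2)) (EB.const _)) (EB.add (EB.eval _ EB.id)
      (EB.add (EB.add (EB.add (((EB.eval _ EB.pow2).add (EB.const _)).mul (EB.id.mul EB.id))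
      (EB.const _)) ((EB.const _).mul EB.pow2)) (EB.const _)))) (EB.const _)) (EB.eval _ ?_)
    exact (((EB.const _).mul EB.id).add (EB.const _)).add EB.pow2
  · rw [Position.code_eq]
    set d := P.data with hd
    have e1 := exec_iterP (c := c₂) (fun i => enc (2 ^ i)) (p₂.eval (2 ^ (sz d * sz d)))
      (enc (sz d * sz d)) (by
        intro j hj
        simp only [enc_nat, List.length_replicate] at hj
        have := h₂ (2 ^ j)
        beta_reduce at this
        rw [show 2 ^ j + 2 ^ j = 2 ^ (j + 1) by ring] at this
        refine this.weaken ((hp₂ _).trans (eval_mono _ ?_))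
        rw [sz_nat]
        exact Nat.pow_le_pow_right (by omega) hj.le)
    simp only [enc_nat, List.length_replicate, pow_zero] at e1
    have e2 := exec_pairP (Exec.skip (one (enc d))) (((h₁ d).weaken (hp₁ d)).seq e1)
    have e3 := (h₃ ⟨d⟩).weaken (hp₃ ⟨d⟩)
    have e4 : alg b d (2 ^ (sz d * sz d)) = decide (P.Won b) := by
      have h1 : d.1.length = P.n := by simp [hd, Position.data]
      have h2 : d.2.1.length = P.t := by simp [hd, Position.data]
      have := count_le d
      rw [h1, h2] at this
      rw [Bool.eq_iff_iff, decide_eq_true_eq]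
      exact alg_iff b P this
    have e5 : sz (⟨d⟩ : Pad) = 2 * sz d + 1 + 2 ^ (sz d * sz d) := by
      have := sz_prod d (2 ^ (sz d * sz d))
      rw [sz_nat] at this
      exact this
    simp only [e4, e5, enc_bool] at e3
    refine (e2.seq e3).cast rfl rfl ?_
    simp only [List.length_replicate, sz]
    exact le_rfl

end Pool.Agent.MP_8c4891_lc
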