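import Pool.Agent.MP_8c4891_lc.Game
import Pool.Agent.MP_2e8011_lc.PTLib

/-! The alternating program that checks a tableau given by local rules. -/

namespace Pool.Agent.MP_8c4891_lc

open Pool.Agent.MP_2e8011_lc

variable {ν : Type} {A : AP ν}

theorem Res.det {r : Bool} {a a' : ν} {mem mem' : ℕ → Bool} (h1 : A.Tr a mem a' mem')
    (h2 : ∀ a'' mem'', A.Tr a mem a'' mem'' → a'' = a' ∧ mem'' = mem') (h : Res A r a' mem') :
    Res A r a mem := by
  by_cases ho : A.own a = r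
  · exact Res.pick ho h1 h
  · refine Res.all (by cases r <;> simpa using ho) ?_
    intro a'' mem'' ht
    obtain ⟨rfl, rfl⟩ := h2 a'' mem'' ht
    exact h

theorem Res.plain {r : Bool} {a a' : ν} {mem : ℕ → Bool} (h1 : A.pl a = [a']) (h2 : A.fl a = [])
    (h : Res A r a' mem) : Res A r a mem := by
  refine Res.det (a' := a') (mem' := mem) (Or.inl ⟨by simp [h1], rfl⟩) ?_ h
  rintro a'' mem'' (⟨h3, rfl⟩ | ⟨c, h3, rfl⟩)
  · simpa [h1] using h3
  · simp [h2] at h3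

theorem Res.flip {r : Bool} {a a₁ a₂ : ν} {c : ℕ} {b : Bool} {mem : ℕ → Bool} (h1 : A.pl a = [])
    (h2 : A.fl a = [(c, b, a₁), (c, !b, a₂)])
    (h : Res A r (if mem c = b then a₁ else a₂) (Function.update mem c (!mem c))) :
    Res A r a mem := by
  refine Res.det (Or.inr ⟨c, ?_, rfl⟩) ?_ h
  · rw [h2]
    cases b <;> cases mem c <;> simp
  · rintro a'' mem'' (⟨h3, rfl⟩ | ⟨c', h3, rfl⟩)
    · simp [h1] at h3
    · simp only [h2, List.mem_cons, Prod.mk.injEq, List.not_mem_nil, or_false] at h3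
      rcases h3 with ⟨rfl, h3, rfl⟩ | ⟨rfl, h3, rfl⟩
      · simp [h3]
      · cases b <;> simp_all

/-- A node whose moves do not change the memory, the owner picking a good one. -/
theorem Res.pick' {r : Bool} {a a' : ν} {mem : ℕ → Bool} (ho : A.own a = r) (h1 : a' ∈ A.pl a)
    (h : Res A r a' mem) : Res A r a mem := Res.pick ho (Or.inl ⟨h1, rfl⟩) h

theorem Res.all' {r : Bool} {a : ν} {mem : ℕ → Bool} (ho : A.own a = !r) (h2 : A.fl a = [])
    (h : ∀ a' ∈ A.pl a, Res A r a' mem) : Res A r a mem := by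
  refine Res.all ho ?_
  rintro a'' mem'' (⟨h3, rfl⟩ | ⟨c, h3, rfl⟩)
  · exact h _ h3
  · simp [h2] at h3

/-- The number written in the `k` cells from `o` on, the digit one being written `b`. -/
def valB (b : Bool) (mem : ℕ → Bool) : ℕ → ℕ → ℕ
  | _, 0 => 0
  | o, k + 1 => (if mem o = b then 1 else 0) + 2 * valB b mem (o + 1) k

theorem valB_congr (b : Bool) {mem mem' : ℕ → Bool} (k : ℕ) : ∀ o,
    (∀ c, o ≤ c → c < o + k → mem' c = mem c) → valB b mem' o k = valB b mem o k := by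
  induction k with
  | zero => intro o _; rfl
  | succ k ih =>
    intro o h
    rw [valB, valB, h o le_rfl (by omega), ih (o + 1) (fun c h1 h2 => h c (by omega) (by omega))]

theorem valB_compl (mem : ℕ → Bool) (k : ℕ) : ∀ o,
    valB true mem o k + valB false mem o k + 1 = 2 ^ k := by
  induction k with
  | zero => intro o; rfl
  | succ k ih =>
    intro o
    have := ih (o + 1)
    rw [valB, valB, pow_succ]
    cases mem o <;> simp <;> omega

theorem counter (b : Bool) (ok carry : ν) (k : ℕ) : ∀ (o : ℕ) (nd : ℕ → ν) (mem : ℕ → Bool),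
    (∀ j < k, A.pl (nd j) = [] ∧ A.fl (nd j) = [(o + j, b, ok), (o + j, !b, nd (j + 1))]) →
    A.pl (nd k) = [carry] → A.fl (nd k) = [] →
    ∃ mem', (∀ c, c < o ∨ o + k ≤ c → mem' c = mem c) ∧
      ((valB b mem o k = 0 ∧ valB b mem' o k + 1 = 2 ^ k ∧
          ∀ r, Res A r carry mem' → Res A r (nd 0) mem) ∨
        (valB b mem' o k + 1 = valB b mem o k ∧ ∀ r, Res A r ok mem' → Res A r (nd 0) mem)) := by
  induction k with
  | zero =>
    intro o nd mem _ h1 h2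
    exact ⟨mem, fun _ _ => rfl, Or.inl ⟨rfl, rfl, fun r h => Res.plain h1 h2 h⟩⟩
  | succ k ih =>
    intro o nd mem h0 h1 h2
    obtain ⟨h3, h4⟩ := h0 0 (by omega)
    rw [add_zero, zero_add] at h4
    have hv : valB b (Function.update mem o (!mem o)) (o + 1) k = valB b mem (o + 1) k :=
      valB_congr b k _ (fun c hc _ => Function.update_of_ne (by omega) _ _)
    by_cases hb : mem o = b
    · refine ⟨Function.update mem o (!mem o), fun c hc => Function.update_of_ne (by omega) _ _,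
        Or.inr ⟨?_, fun r h => Res.flip h3 h4 (by rwa [if_pos hb])⟩⟩
      rw [valB, valB, hv, Function.update_self, if_pos hb, if_neg (by rw [hb]; simp)]
      omega
    · obtain ⟨mem', h5, h6⟩ := ih (o + 1) (fun j => nd (j + 1)) (Function.update mem o (!mem o))
        (fun j hj => by
          have := h0 (j + 1) (by omega)
          rwa [show o + (j + 1) = o + 1 + j by omega] at this) h1 h2
      have h7 : mem' o = b := by
        rw [h5 o (by omega), Function.update_self]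
        cases b <;> simpa using hb
      refine ⟨mem', fun c hc => ?_, ?_⟩
      · rw [h5 c (by omega), Function.update_of_ne (by omega)]
      · rw [hv] at h6
        rcases h6 with ⟨h6, h8, h9⟩ | ⟨h6, h9⟩
        · refine Or.inl ⟨?_, ?_, fun r h => Res.flip h3 h4 (by rw [if_neg hb]; exact h9 r h)⟩
          · rw [valB, if_neg hb, h6]
          · rw [valB, if_pos h7, pow_succ]; omega
        · refine Or.inr ⟨?_, fun r h => Res.flip h3 h4 (by rw [if_neg hb]; exact h9 r h)⟩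
          rw [valB, valB, if_pos h7, if_neg hb]; omega

/-- The player `r` wins from `a` whenever the two registers hold `t` and `i`. -/
def RV (A : AP ν) (m₁ m₂ : ℕ) (r : Bool) (a : ν) (t i : ℕ) : Prop :=
  ∀ mem, valB true mem 0 m₁ = t → valB true mem m₁ m₂ = i → Res A r a mem

variable {m₁ m₂ : ℕ} {q : Bool}

theorem RV.decT {ok carry : ν} {nd : ℕ → ν}
    (h0 : ∀ j < m₁, A.pl (nd j) = [] ∧ A.fl (nd j) = [(j, true, ok), (j, false, nd (j + 1))])
    (h1 : A.pl (nd m₁) = [carry]) (h2 : A.fl (nd m₁) = []) {t i : ℕ}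
    (hc : t = 0 → ∀ t', RV A m₁ m₂ q carry t' i) (hk : ∀ t', t = t' + 1 → RV A m₁ m₂ q ok t' i) :
    RV A m₁ m₂ q (nd 0) t i := by
  intro mem ht hi
  obtain ⟨mem', h3, h4⟩ := counter true ok carry m₁ 0 nd mem (by simpa using h0) h1 h2
  have h5 : valB true mem' m₁ m₂ = i :=
    (valB_congr true m₂ m₁ (fun c hc _ => h3 c (by omega))).trans hi
  rcases h4 with ⟨h6, -, h7⟩ | ⟨h6, h7⟩
  · exact h7 q (hc (by omega) _ mem' rfl h5)
  · exact h7 q (hk _ (by omega) mem' rfl h5)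

theorem RV.decI {ok carry : ν} {nd : ℕ → ν}
    (h0 : ∀ j < m₂, A.pl (nd j) = [] ∧
      A.fl (nd j) = [(m₁ + j, true, ok), (m₁ + j, false, nd (j + 1))])
    (h1 : A.pl (nd m₂) = [carry]) (h2 : A.fl (nd m₂) = []) {t i : ℕ}
    (hc : i = 0 → RV A m₁ m₂ q carry t (2 ^ m₂ - 1))
    (hk : ∀ i', i = i' + 1 → RV A m₁ m₂ q ok t i') : RV A m₁ m₂ q (nd 0) t i := by
  intro mem ht hi
  obtain ⟨mem', h3, h4⟩ := counter true ok carry m₂ m₁ nd mem (by simpa using h0) h1 h2
  have h5 : valB true mem' 0 m₁ = t :=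
    (valB_congr true m₁ 0 (fun c _ hc => h3 c (by omega))).trans ht
  rcases h4 with ⟨h6, h8, h7⟩ | ⟨h6, h7⟩
  · exact h7 q (hc (by omega) mem' h5 (by omega))
  · exact h7 q (hk _ (by omega) mem' h5 rfl)

theorem RV.incI {ok : ν} {nd : ℕ → ν}
    (h0 : ∀ j < m₂, A.pl (nd j) = [] ∧
      A.fl (nd j) = [(m₁ + j, false, ok), (m₁ + j, true, nd (j + 1))])
    (h1 : A.pl (nd m₂) = [ok]) (h2 : A.fl (nd m₂) = []) {t i : ℕ}
    (hk : RV A m₁ m₂ q ok t ((i + 1) % 2 ^ m₂)) : RV A m₁ m₂ q (nd 0) t i := by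
  intro mem ht hi
  obtain ⟨mem', h3, h4⟩ := counter false ok ok m₂ m₁ nd mem (by simpa using h0) h1 h2
  have h5 : valB true mem' 0 m₁ = t :=
    (valB_congr true m₁ 0 (fun c _ hc => h3 c (by omega))).trans ht
  have e1 := valB_compl mem m₂ m₁
  have e2 := valB_compl mem' m₂ m₁
  rcases h4 with ⟨h6, h8, h7⟩ | ⟨h6, h7⟩
  · refine h7 q (hk mem' h5 ?_)
    rw [show i + 1 = 2 ^ m₂ by omega, Nat.mod_self]
    omega
  · refine h7 q (hk mem' h5 ?_)
    rw [Nat.mod_eq_of_lt (by omega)]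
    omega

theorem RV.plain {a a' : ν} (h1 : A.pl a = [a']) (h2 : A.fl a = []) {t i : ℕ}
    (h : RV A m₁ m₂ q a' t i) : RV A m₁ m₂ q a t i :=
  fun mem ht hi => Res.plain h1 h2 (h mem ht hi)

theorem RV.compare {nd : ℕ → ℕ → ν} {low : ℕ → ν} {high : ν} {L : ℕ}
    (h0 : ∀ r < L, ∀ j < m₂, A.pl (nd r j) = [] ∧
      A.fl (nd r j) = [(m₁ + j, true, nd (r + 1) 0), (m₁ + j, false, nd r (j + 1))])
    (h1 : ∀ r < L, A.pl (nd r m₂) = [low r] ∧ A.fl (nd r m₂) = [])
    (h2 : A.pl (nd L 0) = [high] ∧ A.fl (nd L 0) = []) {t : ℕ} (e : ℕ) : ∀ r i, r + e = L →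
    (i < e → ∀ i', RV A m₁ m₂ q (low (r + i)) t i') → (e ≤ i → RV A m₁ m₂ q high t (i - e)) →
    RV A m₁ m₂ q (nd r 0) t i := by
  induction e with
  | zero =>
    intro r i hr _ h
    obtain rfl : r = L := hr
    exact RV.plain h2.1 h2.2 (h (Nat.zero_le _))
  | succ e ih =>
    intro r i hr hl hh
    refine RV.decI (nd := nd r) (h0 r (by omega)) (h1 r (by omega)).1 (h1 r (by omega)).2 ?_ ?_
    · rintro rfl
      exact hl (by omega) _
    · rintro i' rfl
      refine ih (r + 1) i' (by omega) (fun h => ?_) (fun h => ?_)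
      · rw [show r + 1 + i' = r + (i' + 1) by omega]
        exact hl (by omega)
      · rw [show i' - e = i' + 1 - (e + 1) by omega]
        exact hh (by omega)

/-- A finite system of local rules. -/
structure Sys where
  S : ℕ
  W : ℕ
  D : ℕ
  prem : ℕ → List (ℕ × ℕ)
  len : ℕ → ℕ → ℕ
  ok : ℕ → ℕ → ℕ → Bool
  sh : ℕ → ℕ
  tab : ℕ → Bool → Bool → Bool → Bool
  prem_bd : ∀ w, ∀ e ∈ prem w, e.1 < D ∧ e.2 < S
  len_bd : ∀ w s, len w s ≤ D
  sh_bd : ∀ s, sh s ≤ D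
  pt_prem : PT prem
  pt_len : PT (fun p : ℕ × ℕ => len p.1 p.2)
  pt_ok : PT (fun p : ℕ × ℕ × ℕ => ok p.1 p.2.1 p.2.2)
  pt_sh : PT sh
  pt_tab : PT (fun p : ℕ × Bool × Bool × Bool => tab p.1 p.2.1 p.2.2.1 p.2.2.2)

/-- The tableau `H` obeys the rules on the input `x`. -/
structure Sys.Valid (Y : Sys) (x : List Bool) (H : ℕ → ℕ → ℕ → Prop) : Prop where
  init : ∀ s < Y.S, ∀ i, H 0 i s ↔
    Y.tab s (decide (i = 0)) (decide (i < x.length)) (x.getD i false) = true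
  sound : ∀ t, ∀ w < Y.W, (∀ e ∈ Y.prem w, H t e.1 e.2) → ∀ s < Y.S, ∀ i,
    (H (t + 1) i s ↔ if i < Y.len w s then Y.ok w s i = true else H t (i - Y.len w s + Y.sh s) s)
  complete : ∀ t, ∃ w < Y.W, ∀ e ∈ Y.prem w, H t e.1 e.2

/-- Nodes of the program. -/
abbrev Nd : Type := ℕ × ℕ × ℕ × ℕ × ℕ

/-- Final nodes. -/
def fin (b : Bool) : Nd := if b then (8, 0, 0, 0, 0) else (9, 0, 0, 0, 0)

/-- Plain transitions. -/
def Sys.pl (Y : Sys) (x : List Bool) (m₁ m₂ : ℕ) (a : Nd) : List Nd :=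
  if a.1 = 0 then (if a.2.2.2.2 < m₁ then [] else [(7, a.2.1, 0, 0, 0)])
  else if a.1 = 1 then (List.range Y.W).map (fun w => (2, a.2.1, w, 0, 0))
  else if a.1 = 2 then
    (if a.2.2.2.1 < Y.len a.2.2.1 a.2.1 then
      (if a.2.2.2.2 < m₂ then [] else
        [if Y.ok a.2.2.1 a.2.1 a.2.2.2.1 then (3, 0, a.2.2.1, 0, 0) else (9, 0, 0, 0, 0)])
    else [(4, a.2.1, a.2.2.1, 0, 0)])
  else if a.1 = 3 then (Y.prem a.2.2.1).map (fun e => (6, e.2, 0, e.1 + 1, 0))
  else if a.1 = 4 then [(3, 0, a.2.2.1, 0, 0), (5, a.2.1, 0, Y.sh a.2.1, 0)]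
  else if a.1 = 5 then
    (if a.2.2.2.1 = 0 then [(0, a.2.1, 0, 0, 0)] else
      if a.2.2.2.2 < m₂ then [] else [(5, a.2.1, 0, a.2.2.2.1 - 1, 0)])
  else if a.1 = 6 then (if a.2.2.2.2 < m₂ then [] else [(5, a.2.1, 0, a.2.2.2.1, 0)])
  else if a.1 = 7 then
    (if a.2.2.2.1 < x.length + 1 then
      (if a.2.2.2.2 < m₂ then [] else
        [fin (Y.tab a.2.1 (decide (a.2.2.2.1 = 0)) (decide (a.2.2.2.1 < x.length))
          (x.getD a.2.2.2.1 false))])
    else [fin (Y.tab a.2.1 false false false)])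
  else []

/-- Transitions that flip a bit. -/
def Sys.fl (Y : Sys) (x : List Bool) (m₁ m₂ : ℕ) (a : Nd) : List (ℕ × Bool × Nd) :=
  if a.1 = 0 ∧ a.2.2.2.2 < m₁ then
    [(a.2.2.2.2, true, (1, a.2.1, 0, 0, 0)), (a.2.2.2.2, false, (0, a.2.1, 0, 0, a.2.2.2.2 + 1))]
  else if a.1 = 2 ∧ a.2.2.2.1 < Y.len a.2.2.1 a.2.1 ∧ a.2.2.2.2 < m₂ then
    [(m₁ + a.2.2.2.2, true, (2, a.2.1, a.2.2.1, a.2.2.2.1 + 1, 0)),
      (m₁ + a.2.2.2.2, false, (2, a.2.1, a.2.2.1, a.2.2.2.1, a.2.2.2.2 + 1))]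
  else if a.1 = 5 ∧ 0 < a.2.2.2.1 ∧ a.2.2.2.2 < m₂ then
    [(m₁ + a.2.2.2.2, false, (5, a.2.1, 0, a.2.2.2.1 - 1, 0)),
      (m₁ + a.2.2.2.2, true, (5, a.2.1, 0, a.2.2.2.1, a.2.2.2.2 + 1))]
  else if a.1 = 6 ∧ a.2.2.2.2 < m₂ then
    [(m₁ + a.2.2.2.2, true, (6, a.2.1, 0, a.2.2.2.1, 0)),
      (m₁ + a.2.2.2.2, false, (6, a.2.1, 0, a.2.2.2.1, a.2.2.2.2 + 1))]
  else if a.1 = 7 ∧ a.2.2.2.1 < x.length + 1 ∧ a.2.2.2.2 < m₂ then
    [(m₁ + a.2.2.2.2, true, (7, a.2.1, 0, a.2.2.2.1 + 1, 0)),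
      (m₁ + a.2.2.2.2, false, (7, a.2.1, 0, a.2.2.2.1, a.2.2.2.2 + 1))]
  else []

/-- The program. -/
def Sys.ap (Y : Sys) (x : List Bool) (m₁ m₂ : ℕ) : AP Nd where
  m := m₁ + m₂
  own a := decide (a.1 ≠ 3 ∧ a.1 ≠ 4 ∧ a.1 ≠ 8)
  pl := Y.pl x m₁ m₂
  fl := Y.fl x m₁ m₂

namespace Sys

variable {Y : Sys} {x : List Bool}

theorem fl_lt (a : Nd) : ∀ f ∈ (Y.ap x m₁ m₂).fl a, f.1 < (Y.ap x m₁ m₂).m := by
  intro f hf
  simp only [ap, fl] at hf ⊢
  split_ifs at hf <;> simp only [List.mem_cons, List.not_mem_nil, or_false] at hf <;>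
    rcases hf with rfl | rfl <;> simp only <;> omega

theorem rv_fin (b : Bool) (t i : ℕ) : RV (Y.ap x m₁ m₂) m₁ m₂ b (fin b) t i := by
  intro mem _ _
  cases b
  · exact Res.all' (by simp [ap, fin]) (by simp [ap, fin, fl]) (by simp [ap, fin, pl])
  · exact Res.all' (by simp [ap, fin]) (by simp [ap, fin, fl]) (by simp [ap, fin, pl])

theorem rv_add (s t : ℕ) (r : ℕ) : ∀ i, RV (Y.ap x m₁ m₂) m₁ m₂ q (0, s, 0, 0, 0) t
    ((i + r) % 2 ^ m₂) → RV (Y.ap x m₁ m₂) m₁ m₂ q (5, s, 0, r, 0) t (i % 2 ^ m₂) := by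
  induction r with
  | zero => intro i h; exact RV.plain (by simp [ap, pl]) (by simp [ap, fl]) h
  | succ r ih =>
    intro i h
    refine RV.incI (nd := fun j => (5, s, 0, r + 1, j)) (ok := (5, s, 0, r, 0))
      (fun j hj => ⟨by simp [ap, pl, hj], by simp [ap, fl, hj]⟩) (by simp [ap, pl])
      (by simp [ap, fl]) ?_
    rw [Nat.mod_add_mod]
    refine ih (i + 1) ?_
    rwa [show i + 1 + r = i + (r + 1) by omega]

theorem rv_clr (s t r : ℕ) (h : RV (Y.ap x m₁ m₂) m₁ m₂ q (5, s, 0, r, 0) t (2 ^ m₂ - 1)) (i : ℕ) :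
    RV (Y.ap x m₁ m₂) m₁ m₂ q (6, s, 0, r, 0) t i := by
  induction i with
  | zero =>
    exact RV.decI (nd := fun j => (6, s, 0, r, j)) (ok := (6, s, 0, r, 0))
      (carry := (5, s, 0, r, 0))
      (fun j hj => ⟨by simp [ap, pl, hj], by simp [ap, fl, hj]⟩) (by simp [ap, pl])
      (by simp [ap, fl]) (fun _ => h) (fun i' h => by omega)
  | succ i ih =>
    exact RV.decI (nd := fun j => (6, s, 0, r, j)) (ok := (6, s, 0, r, 0))
      (carry := (5, s, 0, r, 0))
      (fun j hj => ⟨by simp [ap, pl, hj], by simp [ap, fl, hj]⟩) (by simp [ap, pl])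
      (by simp [ap, fl]) (fun h => by omega) (fun i' h => by
        obtain rfl : i = i' := by omega
        exact ih)

theorem rv_set (s t j : ℕ) (hj : j < 2 ^ m₂) (h : RV (Y.ap x m₁ m₂) m₁ m₂ q (0, s, 0, 0, 0) t j)
    (i : ℕ) : RV (Y.ap x m₁ m₂) m₁ m₂ q (6, s, 0, j + 1, 0) t i := by
  refine rv_clr s t _ ?_ i
  have h1 : 0 < 2 ^ m₂ := by positivity
  have := rv_add (Y := Y) (x := x) (m₁ := m₁) (m₂ := m₂) (q := q) s t (j + 1) (2 ^ m₂ - 1) (by
    rwa [show 2 ^ m₂ - 1 + (j + 1) = j + 2 ^ m₂ by omega, Nat.add_mod_right, Nat.mod_eq_of_lt hj])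
  rwa [Nat.mod_eq_of_lt (by omega)] at this

theorem rv_init {H : ℕ → ℕ → ℕ → Prop} (hV : Y.Valid x H) {s : ℕ} (hs : s < Y.S) {i : ℕ}
    (hq : H 0 i s ↔ q = true) (t : ℕ) : RV (Y.ap x m₁ m₂) m₁ m₂ q (7, s, 0, 0, 0) t i := by
  rw [hV.init s hs] at hq
  have hq' : Y.tab s (decide (i = 0)) (decide (i < x.length)) (x.getD i false) = q := by
    cases q <;> simpa using hq
  refine RV.compare (nd := fun r j => (7, s, 0, r, j))
    (low := fun r => fin (Y.tab s (decide (r = 0)) (decide (r < x.length)) (x.getD r false)))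
    (high := fin (Y.tab s false false false)) (L := x.length + 1)
    (fun r hr j hj => ⟨by simp [ap, pl, hj, hr], by simp [ap, fl, hj, hr]⟩)
    (fun r hr => ⟨by simp [ap, pl, hr], by simp [ap, fl]⟩)
    ⟨by simp [ap, pl], by simp [ap, fl]⟩ (x.length + 1) 0 i (by simp) ?_ ?_
  · intro _ i'
    rw [zero_add, hq']
    exact rv_fin _ _ _
  · intro hi
    have h1 : decide (i = 0) = false := by simp; omega
    have h2 : decide (i < x.length) = false := by simp; omega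
    have h3 : x.getD i false = false := List.getD_eq_default _ _ (by omega)
    rw [h1, h2, h3] at hq'
    rw [hq']
    exact rv_fin _ _ _

theorem rv_claim {H : ℕ → ℕ → ℕ → Prop} (hV : Y.Valid x H) (t : ℕ) : ∀ (q : Bool) (s i : ℕ),
    s < Y.S → i + Y.D * t < 2 ^ m₂ → (H t i s ↔ q = true) →
    RV (Y.ap x m₁ m₂) m₁ m₂ q (0, s, 0, 0, 0) t i := by
  induction t with
  | zero =>
    intro q s i hs _ hq
    exact RV.decT (nd := fun j => (0, s, 0, 0, j)) (ok := (1, s, 0, 0, 0))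
      (carry := (7, s, 0, 0, 0))
      (fun j hj => ⟨by simp [ap, pl, hj], by simp [ap, fl, hj]⟩) (by simp [ap, pl])
      (by simp [ap, fl]) (fun _ t' => rv_init hV hs hq t') (fun t' h => by omega)
  | succ t ih =>
    intro q s i hs hb hq
    rw [Nat.mul_succ] at hb
    refine RV.decT (nd := fun j => (0, s, 0, 0, j)) (ok := (1, s, 0, 0, 0))
      (carry := (7, s, 0, 0, 0))
      (fun j hj => ⟨by simp [ap, pl, hj], by simp [ap, fl, hj]⟩) (by simp [ap, pl])
      (by simp [ap, fl]) (fun h => by omega) (fun t' h => ?_)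
    obtain rfl : t = t' := by omega
    have hprem : ∀ w, ∀ e ∈ Y.prem w, ∀ q', (H t e.1 e.2 ↔ q' = true) → ∀ i',
        RV (Y.ap x m₁ m₂) m₁ m₂ q' (6, e.2, 0, e.1 + 1, 0) t i' := by
      intro w e he q' h i'
      obtain ⟨h1, h2⟩ := Y.prem_bd w e he
      exact rv_set _ _ _ (by omega) (ih q' _ _ h2 (by omega) h) i'
    have hch1 : ∀ w, (∀ e ∈ Y.prem w, H t e.1 e.2) → ∀ i',
        RV (Y.ap x m₁ m₂) m₁ m₂ true (3, 0, w, 0, 0) t i' := by
      intro w hw i' mem h1 h2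
      refine Res.all' (by simp [ap]) (by simp [ap, fl]) ?_
      intro a' ha'
      simp only [ap, pl] at ha'
      simp only [OfNat.ofNat_ne_zero, OfNat.ofNat_ne_one, Nat.reduceEqDiff, if_false, if_true,
        List.mem_map] at ha'
      obtain ⟨e, he, rfl⟩ := ha'
      exact hprem w e he true (by simp [hw e he]) i' mem h1 h2
    have hch0 : ∀ w, ¬ (∀ e ∈ Y.prem w, H t e.1 e.2) → ∀ i',
        RV (Y.ap x m₁ m₂) m₁ m₂ false (3, 0, w, 0, 0) t i' := by
      intro w hw i' mem h1 h2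
      simp only [not_forall] at hw
      obtain ⟨e, he, hw⟩ := hw
      refine Res.pick' (by simp [ap]) ?_ (hprem w e he false (by simp [hw]) i' mem h1 h2)
      simp only [ap, pl]
      simp only [OfNat.ofNat_ne_zero, OfNat.ofNat_ne_one, Nat.reduceEqDiff, if_false, if_true,
        List.mem_map]
      exact ⟨e, he, rfl⟩
    have hsub : ∀ w, (i < Y.len w s → ∀ i', RV (Y.ap x m₁ m₂) m₁ m₂ q
          (if Y.ok w s i then (3, 0, w, 0, 0) else (9, 0, 0, 0, 0)) t i') →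
        (Y.len w s ≤ i → RV (Y.ap x m₁ m₂) m₁ m₂ q (4, s, w, 0, 0) t (i - Y.len w s)) →
        RV (Y.ap x m₁ m₂) m₁ m₂ q (2, s, w, 0, 0) t i := by
      intro w h1 h2
      refine RV.compare (nd := fun r j => (2, s, w, r, j))
        (low := fun r => if Y.ok w s r then (3, 0, w, 0, 0) else (9, 0, 0, 0, 0))
        (high := (4, s, w, 0, 0)) (L := Y.len w s)
        (fun r hr j hj => ⟨by simp [ap, pl, hj, hr], by simp [ap, fl, hj, hr]⟩)
        (fun r hr => ⟨by simp [ap, pl, hr], by simp [ap, fl]⟩)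
        ⟨by simp [ap, pl], by simp [ap, fl]⟩ (Y.len w s) 0 i (by simp) ?_ h2
      simpa using h1
    have hadd : ∀ w, (H t (i - Y.len w s + Y.sh s) s ↔ q = true) →
        RV (Y.ap x m₁ m₂) m₁ m₂ q (5, s, 0, Y.sh s, 0) t (i - Y.len w s) := by
      intro w h
      have h1 := Y.sh_bd s
      have := rv_add (Y := Y) (x := x) (m₁ := m₁) (m₂ := m₂) (q := q) s t (Y.sh s)
        (i - Y.len w s) (by
          rw [Nat.mod_eq_of_lt (by omega)]
          exact ih q s _ hs (by omega) h)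
      rwa [Nat.mod_eq_of_lt (by omega)] at this
    cases q with
    | true =>
      obtain ⟨w, hw, hp⟩ := hV.complete t
      have h1 := (hV.sound t w hw hp s hs i).1 (hq.2 rfl)
      intro mem e1 e2
      refine Res.pick' (a' := (2, s, w, 0, 0)) (by simp [ap]) (by simpa [ap, pl] using hw)
        (hsub w (fun h i' => ?_) (fun h => ?_) mem e1 e2)
      · rw [if_pos h] at h1
        rw [if_pos h1]
        exact hch1 w hp i'
      · rw [if_neg (by omega)] at h1
        intro mem' e1' e2'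
        refine Res.all' (by simp [ap]) (by simp [ap, fl]) ?_
        intro a' ha'
        have : a' = (3, 0, w, 0, 0) ∨ a' = (5, s, 0, Y.sh s, 0) := by simpa [ap, pl] using ha'
        rcases this with rfl | rfl
        · exact hch1 w hp _ mem' e1' e2'
        · exact hadd w (by simp [h1]) mem' e1' e2'
    | false =>
      have hq' : ¬ H (t + 1) i s := by simpa using hq
      intro mem e1 e2
      refine Res.all' (by simp [ap]) (by simp [ap, fl]) ?_
      intro a' ha'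
      have : ∃ w < Y.W, (2, s, w, 0, 0) = a' := by simpa [ap, pl] using ha'
      obtain ⟨w, hw, rfl⟩ := this
      refine hsub w (fun h i' => ?_) (fun h => ?_) mem e1 e2
      · by_cases hp : ∀ e ∈ Y.prem w, H t e.1 e.2
        · rw [hV.sound t w hw hp s hs i, if_pos h] at hq'
          rw [if_neg hq']
          exact rv_fin false _ _
        · split_ifs
          · exact hch0 w hp i'
          · exact rv_fin false _ _
      · intro mem' e1' e2'
        by_cases hp : ∀ e ∈ Y.prem w, H t e.1 e.2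
        · rw [hV.sound t w hw hp s hs i, if_neg (by omega)] at hq'
          exact Res.pick' (a' := (5, s, 0, Y.sh s, 0)) (by simp [ap]) (by simp [ap, pl])
            (hadd w (by simp [hq']) mem' e1' e2')
        · exact Res.pick' (a' := (3, 0, w, 0, 0)) (by simp [ap]) (by simp [ap, pl])
            (hch0 w hp _ mem' e1' e2')

end Sys

end Pool.Agent.MP_8c4891_lc
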