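import Pool.Agent.MP_8c4891_lc.Game

/-! Positions in which the control token is on its heap or gone are sums of nim-like games. -/

namespace Pool.Agent.MP_8c4891_lc

open Cq Vx

/-- Nim value of the token of cell `c`. -/
def val (c : ℕ) : Option Cq → ℕ
  | some (T _) => c + 1
  | some (H j) => j
  | _ => 0

/-- Rank of the token of cell `c`. -/
def rk (c : ℕ) : Option Cq → ℕ
  | some (T _) => c + 2
  | some (H j) => j
  | some (R _) => 1
  | none => 0

/-- Nim sum of the first `m` cells. -/
def xs (pos : ℕ → Option Cq) : ℕ → ℕ
  | 0 => 0
  | m + 1 => val m (pos m) ^^^ xs pos m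

/-- Total rank of the first `m` cells. -/
def rs (pos : ℕ → Option Cq) : ℕ → ℕ
  | 0 => 0
  | m + 1 => rk m (pos m) + rs pos m

theorem xs_update_ge (pos : ℕ → Option Cq) {c m : ℕ} (h : m ≤ c) (q : Option Cq) :
    xs (Function.update pos c q) m = xs pos m := by
  induction m with
  | zero => rfl
  | succ m ih => rw [xs, xs, ih (by omega), Function.update_of_ne (by omega)]

theorem xs_update (pos : ℕ → Option Cq) {c m : ℕ} (h : c < m) (q : Option Cq) :
    xs (Function.update pos c q) m = xs pos m ^^^ val c (pos c) ^^^ val c q := by
  induction m with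
  | zero => omega
  | succ m ih =>
    rcases Nat.lt_succ_iff_lt_or_eq.mp h with h | rfl
    · rw [xs, xs, ih h, Function.update_of_ne (by omega)]
      simp only [Nat.xor_assoc]
    · rw [xs, xs, xs_update_ge pos le_rfl, Function.update_self]
      rw [Nat.xor_comm (val c (pos c)), Nat.xor_xor_cancel_right, Nat.xor_comm]

theorem rs_update_ge (pos : ℕ → Option Cq) {c m : ℕ} (h : m ≤ c) (q : Option Cq) :
    rs (Function.update pos c q) m = rs pos m := by
  induction m with
  | zero => rfl
  | succ m ih => rw [rs, rs, ih (by omega), Function.update_of_ne (by omega)]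

theorem rs_update (pos : ℕ → Option Cq) {c m : ℕ} (h : c < m) (q : Option Cq) :
    rs (Function.update pos c q) m + rk c (pos c) = rs pos m + rk c q := by
  induction m with
  | zero => omega
  | succ m ih =>
    rcases Nat.lt_succ_iff_lt_or_eq.mp h with h | rfl
    · have := ih h
      rw [rs, rs, Function.update_of_ne (by omega)]
      omega
    · rw [rs, rs, rs_update_ge pos le_rfl, Function.update_self]
      omega

theorem exists_lt_of_lt_xs (pos : ℕ → Option Cq) (m : ℕ) : ∀ a, a < xs pos m →
    ∃ c < m, a ^^^ xs pos m ^^^ val c (pos c) < val c (pos c) := by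
  induction m with
  | zero => intro a h; simp [xs] at h
  | succ m ih =>
    intro a h
    rw [xs] at h
    rcases Nat.lt_xor_cases h with h | h
    · refine ⟨m, by omega, ?_⟩
      rw [xs, Nat.xor_comm (val m (pos m)), ← Nat.xor_assoc, Nat.xor_xor_cancel_right]
      exact h
    · obtain ⟨c, hc, h⟩ := ih _ h
      refine ⟨c, by omega, ?_⟩
      rw [xs, ← Nat.xor_assoc]
      exact h

/-- Only the first `m` cells carry tokens. -/
def Supp (m : ℕ) (pos : ℕ → Option Cq) : Prop := ∀ c, m ≤ c → pos c = none

theorem Supp.lt {m : ℕ} {pos : ℕ → Option Cq} (h : Supp m pos) {c : ℕ} {q : Cq}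
    (hq : pos c = some q) : c < m := by
  by_contra hc
  rw [h c (by omega)] at hq
  cases hq

theorem Supp.update {m : ℕ} {pos : ℕ → Option Cq} (h : Supp m pos) {c : ℕ} (hc : c < m)
    (q : Option Cq) : Supp m (Function.update pos c q) := by
  intro c' hc'
  rw [Function.update_of_ne (by omega)]
  exact h c' hc'

variable {ν : Type} [DecidableEq ν] {A : AP ν}

omit [DecidableEq ν] in
theorem off_map (k : Option ℕ) : Off (k.map (K : ℕ → Vx ν)) := by
  intro c q
  cases k <;> simp

omit [DecidableEq ν] in
theorem free_K (pos : ℕ → Option Cq) (j : ℕ) : Free pos (K j : Vx ν) := by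
  intro c q h; cases h

theorem reply {k : Option ℕ} {pos : ℕ → Option Cq} (hs : Supp A.m pos)
    (h : k.getD 0 ^^^ xs pos A.m ≠ 0) :
    ∃ (k' : Option ℕ) (pos' : ℕ → Option Cq), Supp A.m pos' ∧ k'.getD 0 ^^^ xs pos' A.m = 0 ∧
      k'.getD 0 + rs pos' A.m < k.getD 0 + rs pos A.m ∧
      (Fo A false (k'.map K) pos' → Fo A true (k.map K) pos) := by
  rcases lt_trichotomy (k.getD 0) (xs pos A.m) with hlt | heq | hgt
  · obtain ⟨c, hc, hlt'⟩ := exists_lt_of_lt_xs pos A.m _ hlt
    set w := k.getD 0 ^^^ xs pos A.m ^^^ val c (pos c) with hw
    have key : ∃ q, pos c = some q ∧ H w ∈ outc c q ∧ w < rk c (some q) := by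
      rcases hq : pos c with _ | q
      · rw [hq] at hlt'; simp [val] at hlt'
      · rw [hq] at hlt'
        cases q with
        | R b => simp [val] at hlt'
        | T b =>
          simp only [val] at hlt'
          exact ⟨_, rfl, by simp [outc]; omega, by simp [rk]; omega⟩
        | H j =>
          simp only [val] at hlt'
          exact ⟨_, rfl, by simp [outc]; omega, by simpa [rk] using hlt'⟩
    obtain ⟨q, hq, he, hr⟩ := key
    refine ⟨k, Function.update pos c (some (H w)), hs.update hc _, ?_, ?_,
      fun h => W_cell (off_map k) hq he h⟩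
    · rw [xs_update pos hc]
      have : val c (some (H w)) = w := rfl
      rw [this, ← Nat.xor_assoc, ← Nat.xor_assoc (k.getD 0) (xs pos A.m), ← hw, Nat.xor_self]
    · have h1 := rs_update pos hc (some (H w))
      rw [hq] at h1
      have : rk c (some (H w)) = w := rfl
      omega
  · rw [heq] at h; simp at h
  · cases k with
    | none => simp at hgt
    | some j =>
      simp only [Option.getD_some] at hgt
      refine ⟨some (xs pos A.m), pos, hs, by simp, by simpa using hgt, fun h => ?_⟩
      refine W_ctrl (free_K _ _) (v := K (xs pos A.m)) (by simp; omega) ?_ (free_K _ _) h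
      simp [out0, hgt]

theorem pure_zero (n : ℕ) : ∀ (k : Option ℕ) (pos : ℕ → Option Cq), Supp A.m pos →
    k.getD 0 ^^^ xs pos A.m = 0 → k.getD 0 + rs pos A.m < n → Fo A false (k.map K) pos := by
  induction n with
  | zero => intro k pos _ _ h; omega
  | succ n ih =>
    intro k pos hs h0 hn
    have step : ∀ (k' : Option ℕ) (pos' : ℕ → Option Cq), Supp A.m pos' →
        k'.getD 0 ^^^ xs pos' A.m ≠ 0 → k'.getD 0 + rs pos' A.m ≤ n → Fo A true (k'.map K) pos' := by
      intro k' pos' hs' h' hn'
      obtain ⟨k'', pos'', h1, h2, h3, h4⟩ := reply hs' h'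
      exact h4 (ih k'' pos'' h1 h2 (by omega))
    refine L_intro (off_map k) ?_ ?_ ?_
    · intro u v hu hv _
      cases k with
      | none => simp at hu
      | some j =>
        simp only [Option.map_some, Option.some.injEq] at hu
        subst hu
        simp only [out0, List.mem_map, List.mem_range] at hv
        obtain ⟨j', hj', rfl⟩ := hv
        simp only [Option.getD_some, Nat.xor_eq_zero_iff] at h0 hn
        refine step (some j') pos hs ?_ ?_
        · simp; omega
        · simp; omega
    · intro u c q hu hv _
      cases k with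
      | none => simp at hu
      | some j =>
        simp only [Option.map_some, Option.some.injEq] at hu
        subst hu
        simp [out0] at hv
    · intro c q q' hq he
      have hc := hs.lt hq
      have h1 := xs_update pos hc (some q')
      have h2 := rs_update pos hc (some q')
      rw [hq] at h1 h2
      have h3 : val c (some q) ≠ val c (some q') →
          k.getD 0 ^^^ xs (Function.update pos c (some q')) A.m ≠ 0 := by
        intro hne
        rw [h1, ← Nat.xor_assoc, ← Nat.xor_assoc, h0, Nat.zero_xor]
        simpa using hne
      cases q with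
      | R b =>
        simp only [outc, List.mem_singleton] at he
        subst he
        refine W_cell (off_map k) (c := c) (q := T (!b)) (q' := H 0) (by simp) (by simp [outc]) ?_
        rw [Function.update_idem]
        refine ih k _ (hs.update hc _) ?_ ?_
        · rw [xs_update pos hc, hq]
          simpa [val] using h0
        · have h4 := rs_update pos hc (some (H 0))
          rw [hq] at h4
          simp only [rk] at h4
          omega
      | T b =>
        simp only [outc, List.mem_cons, List.mem_map, List.mem_range] at he
        rcases he with rfl | ⟨j, hj, rfl⟩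
        · exact step k _ (hs.update hc _) (h3 (by simp [val])) (by simp only [rk] at h2; omega)
        · exact step k _ (hs.update hc _) (h3 (by simp [val]; omega))
            (by simp only [rk] at h2; omega)
      | H j =>
        simp only [outc, List.mem_map, List.mem_range] at he
        obtain ⟨j', hj, rfl⟩ := he
        exact step k _ (hs.update hc _) (h3 (by simp [val]; omega))
          (by simp only [rk] at h2; omega)

theorem pure_K {pos : ℕ → Option Cq} (hs : Supp A.m pos) :
    Fo A false (some (K (xs pos A.m))) pos :=
  pure_zero _ (some (xs pos A.m)) pos hs (by simp) (Nat.lt_succ_self _)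

theorem pure_none {pos : ℕ → Option Cq} (hs : Supp A.m pos) (h : xs pos A.m = 0) :
    Fo A false none pos :=
  pure_zero _ none pos hs (by simpa using h) (Nat.lt_succ_self _)

theorem pure_ne {pos : ℕ → Option Cq} (hs : Supp A.m pos) {j : ℕ} (h : j ≠ xs pos A.m) :
    Fo A true (some (K j)) pos := by
  obtain ⟨k', pos', h1, h2, _, h4⟩ := reply (A := A) (k := some j) hs (by simpa using h)
  exact h4 (pure_zero _ k' pos' h1 h2 (Nat.lt_succ_self _))

end Pool.Agent.MP_8c4891_lc
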