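import Pool.Agent.MP_8c4891_lc.Pure

/-! The gadget graph simulates alternating programs. -/

namespace Pool.Agent.MP_8c4891_lc

open Cq Vx

/-- All the cells at rest, storing `mem`. -/
def rest (m : ℕ) (mem : ℕ → Bool) : ℕ → Option Cq :=
  fun c => if c < m then some (R (mem c)) else none

theorem supp_rest (m : ℕ) (mem : ℕ → Bool) : Supp m (rest m mem) := by
  intro c hc
  simp [rest]; omega

theorem xs_rest (m : ℕ) (mem : ℕ → Bool) (k : ℕ) : xs (rest m mem) k = 0 := by
  induction k with
  | zero => rfl
  | succ k ih =>
    rw [xs, ih]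
    simp only [rest]
    split_ifs <;> simp [val]

theorem rest_lt {m c : ℕ} (h : c < m) (mem : ℕ → Bool) : rest m mem c = some (R (mem c)) := by
  simp [rest, h]

theorem rest_update {m c : ℕ} (h : c < m) (mem : ℕ → Bool) (b : Bool) :
    Function.update (rest m mem) c (some (R b)) = rest m (Function.update mem c b) := by
  funext c'
  by_cases hc : c' = c
  · subst hc; simp [rest, h]
  · simp [rest, hc]

theorem rest_some {m c : ℕ} {mem : ℕ → Bool} {q : Cq} (h : rest m mem c = some q) :
    q = R (mem c) := by
  simp only [rest] at h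
  split_ifs at h
  exact (Option.some.inj h).symm

theorem xs_update_rest {m c : ℕ} (h : c < m) (mem : ℕ → Bool) (q : Option Cq) :
    xs (Function.update (rest m mem) c q) m = val c q := by
  rw [xs_update _ h, xs_rest, rest_lt h]
  simp [val]

variable {ν : Type} [DecidableEq ν] {A : AP ν}

/-- Reply on the heap of the control token. -/
theorem W_heap {u : Vx ν} {l : List (Vx ν)} {e : ℕ} (hu : ∀ c q, u ≠ X c q) (hu' : ∀ j, u ≠ K j)
    (ho : out0 A u = l ++ ks A.m e) {pos : ℕ → Option Cq} (hs : Supp A.m pos)
    (h0 : xs pos A.m ≠ 0) (he : xs pos A.m ≠ e) (hle : xs pos A.m ≤ 2 * A.m) :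
    Fo A true (some u) pos := by
  refine W_ctrl (fun c q h => absurd h (hu c q)) (hu' _) ?_ (free_K _ _) (pure_K hs)
  rw [ho, List.mem_append, mem_ks]
  exact Or.inr ⟨_, hle, h0, he, rfl⟩

theorem L_ctrl {u : Vx ν} {l : List (Vx ν)} {e : ℕ} (hu : ∀ c q, u ≠ X c q) (hu' : ∀ j, u ≠ K j)
    (ho : out0 A u = l ++ ks A.m e) (hem : e ≤ A.m) {pos : ℕ → Option Cq} (hs : Supp A.m pos)
    (hx : xs pos A.m = 0 ∨ xs pos A.m = e)
    (hl : ∀ v ∈ l, (∃ c q, v = X c q ∧ pos c ≠ some q) ∨
      ((∀ c q, v ≠ X c q) ∧ Fo A true (some v) pos))
    (hc : ∀ c q, pos c = some q → (∃ b, q = R b ∧ c + 1 ≠ e) ∨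
      ∀ q' ∈ outc c q, Fo A true (some u) (Function.update pos c (some q'))) :
    Fo A false (some u) pos := by
  refine L_intro (fun c q h => hu c q (Option.some.inj h)) ?_ ?_ ?_
  · intro u' v hu'' hv hf
    obtain rfl := Option.some.inj hu''
    rw [ho, List.mem_append, mem_ks] at hv
    rcases hv with hv | ⟨j, -, h0, he, rfl⟩
    · rcases hl v hv with ⟨c, q, rfl, -⟩ | ⟨-, h⟩
      · refine W_ctrl hf (v := K (xs pos A.m)) (by simp) ?_ (free_K _ _) (pure_K hs)
        simp only [out0, List.mem_map, List.mem_range]
        exact ⟨_, by omega, rfl⟩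
      · exact h
    · exact pure_ne hs (by omega)
  · intro u' c q hu'' hv hq
    obtain rfl := Option.some.inj hu''
    rw [ho, List.mem_append, mem_ks] at hv
    rcases hv with hv | ⟨j, -, -, -, h⟩
    · rcases hl _ hv with ⟨c', q', h, h'⟩ | ⟨h, -⟩
      · cases h
        exact absurd hq h'
      · exact absurd rfl (h c q)
    · cases h
  · intro c q q' hq he
    rcases hc c q hq with ⟨b, rfl, hne⟩ | h
    · simp only [outc, List.mem_singleton] at he
      subst he
      have hcm := hs.lt hq
      have h1 : xs (Function.update pos c (some (T (!b)))) A.m = xs pos A.m ^^^ (c + 1) := by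
        rw [xs_update pos hcm, hq]
        simp [val]
      have h2 := xor_le_add (xs pos A.m) (c + 1)
      refine W_heap hu hu' ho (hs.update hcm _) ?_ ?_ ?_ <;> rw [h1]
      · rcases hx with hx | hx <;> rw [hx] <;> simp
        omega
      · rcases hx with hx | hx <;> rw [hx]
        · simpa using hne
        · intro h
          have := congrArg (fun z => e ^^^ z) h
          simp at this
      · omega
    · exact h q' he

/-- Moves of the active cell in transit to its heap are punished. -/
theorem W_drop {u : Vx ν} {l : List (Vx ν)} {c : ℕ} (hu : ∀ c q, u ≠ X c q) (hu' : ∀ j, u ≠ K j)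
    (ho : out0 A u = l ++ ks A.m (c + 1)) (hc : c < A.m) (h0 : X c (H 0) ∈ l) (mem : ℕ → Bool)
    {j : ℕ} (hj : j < c + 1) :
    Fo A true (some u) (Function.update (rest A.m mem) c (some (H j))) := by
  rcases Nat.eq_zero_or_pos j with rfl | hpos
  · refine W_att (fun c q h => absurd h (hu c q)) (c := c) (q := H 0) ?_ (by simp) ?_
    · rw [ho]; exact List.mem_append_left _ h0
    · rw [Function.update_idem]
      exact pure_none ((supp_rest _ _).update hc _) (by rw [xs_update_rest hc]; rfl)
  · refine W_heap hu hu' ho ((supp_rest _ _).update hc _) ?_ ?_ ?_ <;>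
      rw [xs_update_rest hc] <;> simp only [val] <;> omega

theorem W_att_rest {u : Vx ν} (hu : ∀ c q, u ≠ X c q) {c : ℕ} (hc : c < A.m) {q : Cq}
    (he : X c q ∈ out0 A u) (mem : ℕ → Bool) :
    Fo A true (some u) (Function.update (rest A.m mem) c (some q)) := by
  refine W_att (fun c q h => absurd h (hu c q)) he (by simp) ?_
  rw [Function.update_idem]
  exact pure_none ((supp_rest _ _).update hc _) (by rw [xs_update_rest hc]; rfl)

theorem other_rest {m c : ℕ} {mem : ℕ → Bool} {q : Option Cq} {c' : ℕ} {q' : Cq} (h : c' ≠ c)
    (hq : Function.update (rest m mem) c q c' = some q') : ∃ b, q' = R b ∧ c' + 1 ≠ c + 1 := by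
  rw [Function.update_of_ne h] at hq
  exact ⟨_, rest_some hq, by omega⟩

theorem step4 {c : ℕ} (hc : c < A.m) (b : Bool) (a : ν) (p r : Bool) (mem : ℕ → Bool)
    (h : Fo A r (some (N a p)) (Function.update (rest A.m mem) c (some (R (!b))))) :
    Fo A (!r) (some (W2 c b a p)) (Function.update (rest A.m mem) c (some (R (!b)))) := by
  cases r with
  | false =>
    exact W_ctrl (by intro _ _ h; cases h) (by simp) (by simp [out0]) (by intro _ _ h; cases h) h
  | true =>
    refine L_ctrl (by simp) (by simp) rfl hc ((supp_rest _ _).update hc _)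
      (Or.inl (by rw [xs_update_rest hc]; rfl)) ?_ ?_
    · intro v hv
      simp only [List.mem_cons, List.not_mem_nil, or_false] at hv
      rcases hv with rfl | rfl | rfl | rfl
      · exact Or.inr ⟨by simp, h⟩
      · exact Or.inl ⟨_, _, rfl, by simp⟩
      · exact Or.inl ⟨_, _, rfl, by simp⟩
      · exact Or.inl ⟨_, _, rfl, by simp⟩
    · intro c' q hq
      by_cases hcc : c' = c
      · subst hcc
        right
        intro q' hq'
        simp only [Function.update_self, Option.some.injEq] at hq
        subst hq
        simp only [outc, Bool.not_not, List.mem_singleton] at hq'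
        subst hq'
        rw [Function.update_idem]
        exact W_att_rest (by simp) hc (by simp [out0]) mem
      · exact Or.inl (other_rest hcc hq)

theorem step3 {c : ℕ} (hc : c < A.m) (b : Bool) (a : ν) (p r : Bool) (mem : ℕ → Bool)
    (h : Fo A r (some (W2 c b a p)) (Function.update (rest A.m mem) c (some (R (!b))))) :
    Fo A (!r) (some (W2 c b a p)) (Function.update (rest A.m mem) c (some (T (!b)))) := by
  cases r with
  | false =>
    refine W_cell (by intro _ _ h; cases h) (c := c) (q := T (!b)) (q' := R (!b)) (by simp)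
      (by simp [outc]) ?_
    rwa [Function.update_idem]
  | true =>
    refine L_ctrl (by simp) (by simp) rfl hc ((supp_rest _ _).update hc _)
      (Or.inr (by rw [xs_update_rest hc]; rfl)) ?_ ?_
    · intro v hv
      simp only [List.mem_cons, List.not_mem_nil, or_false] at hv
      rcases hv with rfl | rfl | rfl | rfl
      · refine Or.inr ⟨by simp, W_heap (by simp) (by simp) rfl ((supp_rest _ _).update hc _)
          ?_ ?_ ?_⟩ <;> rw [xs_update_rest hc] <;> simp only [val] <;> omega
      · exact Or.inl ⟨_, _, rfl, by simp⟩
      · exact Or.inl ⟨_, _, rfl, by simp⟩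
      · exact Or.inl ⟨_, _, rfl, by simp⟩
    · intro c' q hq
      by_cases hcc : c' = c
      · subst hcc
        right
        intro q' hq'
        simp only [Function.update_self, Option.some.injEq] at hq
        subst hq
        rw [Function.update_idem]
        simp only [outc, List.mem_cons, List.mem_map, List.mem_range] at hq'
        rcases hq' with rfl | ⟨j, hj, rfl⟩
        · exact h
        · exact W_drop (by simp) (by simp) rfl hc (by simp) mem hj
      · exact Or.inl (other_rest hcc hq)

theorem step2 {c : ℕ} (hc : c < A.m) (b : Bool) (a : ν) (p r : Bool) (mem : ℕ → Bool)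
    (h : Fo A r (some (W2 c b a p)) (Function.update (rest A.m mem) c (some (T (!b))))) :
    Fo A (!r) (some (W1 c b a p)) (Function.update (rest A.m mem) c (some (T (!b)))) := by
  cases r with
  | false =>
    exact W_ctrl (by intro _ _ h; cases h) (by simp) (by simp [out0]) (by intro _ _ h; cases h) h
  | true =>
    refine L_ctrl (by simp) (by simp) rfl hc ((supp_rest _ _).update hc _)
      (Or.inr (by rw [xs_update_rest hc]; rfl)) ?_ ?_
    · intro v hv
      simp only [List.mem_cons, List.not_mem_nil, or_false] at hv
      rcases hv with rfl | rfl | rfl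
      · exact Or.inr ⟨by simp, h⟩
      · exact Or.inl ⟨_, _, rfl, by simp⟩
      · exact Or.inl ⟨_, _, rfl, by simp⟩
    · intro c' q hq
      by_cases hcc : c' = c
      · subst hcc
        right
        intro q' hq'
        simp only [Function.update_self, Option.some.injEq] at hq
        subst hq
        rw [Function.update_idem]
        simp only [outc, List.mem_cons, List.mem_map, List.mem_range] at hq'
        rcases hq' with rfl | ⟨j, hj, rfl⟩
        · exact W_att_rest (by simp) hc (by simp [out0]) mem
        · exact W_drop (by simp) (by simp) rfl hc (by simp) mem hj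
      · exact Or.inl (other_rest hcc hq)

theorem step1 {c : ℕ} (hc : c < A.m) (b : Bool) (a : ν) (p r : Bool) (mem : ℕ → Bool)
    (h : Fo A r (some (W1 c b a p)) (Function.update (rest A.m mem) c (some (T (!b))))) :
    Fo A (!r) (some (W1 c b a p)) (Function.update (rest A.m mem) c (some (R b))) := by
  cases r with
  | false =>
    refine W_cell (by intro _ _ h; cases h) (c := c) (q := R b) (q' := T (!b)) (by simp)
      (by simp [outc]) ?_
    rwa [Function.update_idem]
  | true =>
    refine L_ctrl (by simp) (by simp) rfl hc ((supp_rest _ _).update hc _)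
      (Or.inl (by rw [xs_update_rest hc]; rfl)) ?_ ?_
    · intro v hv
      simp only [List.mem_cons, List.not_mem_nil, or_false] at hv
      rcases hv with rfl | rfl | rfl
      · exact Or.inr ⟨by simp, W_att_rest (by simp) hc (by simp [out0]) mem⟩
      · exact Or.inl ⟨_, _, rfl, by simp⟩
      · exact Or.inl ⟨_, _, rfl, by simp⟩
    · intro c' q hq
      by_cases hcc : c' = c
      · subst hcc
        right
        intro q' hq'
        simp only [Function.update_self, Option.some.injEq] at hq
        subst hq
        rw [Function.update_idem]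
        simp only [outc, List.mem_singleton] at hq'
        subst hq'
        exact h
      · exact Or.inl (other_rest hcc hq)

theorem flip_ok {c : ℕ} (hc : c < A.m) (a : ν) (p r : Bool) (mem : ℕ → Bool)
    (h : Fo A r (some (N a p)) (rest A.m (Function.update mem c (!mem c)))) :
    Fo A r (some (W1 c (mem c) a p)) (rest A.m mem) := by
  rw [← rest_update hc] at h
  have := step1 hc _ a p _ mem (step2 hc _ a p _ mem (step3 hc _ a p _ mem
    (step4 hc _ a p _ mem h)))
  rw [rest_update hc, Function.update_eq_self] at this
  simpa using this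

theorem flip_bad {c : ℕ} (hc : c < A.m) (a : ν) (p : Bool) (mem : ℕ → Bool) :
    Fo A true (some (W1 c (!mem c) a p)) (rest A.m mem) := by
  have := W_att_rest (A := A) (u := W1 c (!mem c) a p) (by simp) hc (q := R (mem c))
    (by simp [out0]) mem
  rwa [rest_update hc, Function.update_eq_self] at this

theorem pass {a : ν} {p r : Bool} (ho : A.own a = !p) {mem : ℕ → Bool}
    (h : Fo A r (some (N a (!p))) (rest A.m mem)) : Fo A (!r) (some (N a p)) (rest A.m mem) := by
  have hne : A.own a ≠ p := by rw [ho]; simp
  cases r with
  | false =>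
    exact W_ctrl (by intro _ _ h; cases h) (by simp) (by simp [out0, hne])
      (by intro _ _ h; cases h) h
  | true =>
    refine L_ctrl (l := [N a (!p)]) (e := 0) (by simp) (by simp) (by simp [out0, hne])
      (Nat.zero_le _) (supp_rest _ _) (Or.inl (xs_rest _ _ _)) ?_ ?_
    · intro v hv
      simp only [List.mem_singleton] at hv
      subst hv
      exact Or.inr ⟨by simp, h⟩
    · intro c q hq
      exact Or.inl ⟨_, rest_some hq, by omega⟩

theorem simulate (hA : ∀ a, ∀ f ∈ A.fl a, f.1 < A.m) {r : Bool} {a : ν} {mem : ℕ → Bool}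
    (h : Res A r a mem) :
    Fo A true (some (N a r)) (rest A.m mem) ∧ Fo A false (some (N a (!r))) (rest A.m mem) := by
  induction h with
  | @pick a mem a' mem' ho ht _ ih =>
    have h1 : Fo A true (some (N a r)) (rest A.m mem) := by
      rcases ht with ⟨ht, rfl⟩ | ⟨c, ht, rfl⟩
      · refine W_ctrl (by intro _ _ h; cases h) (v := N a' (!r)) (by simp) ?_
          (by intro _ _ h; cases h) ih.2
        simp only [out0, ho, if_true, List.mem_append, List.mem_map]
        exact Or.inl (Or.inl ⟨a', ht, rfl⟩)
      · refine W_ctrl (by intro _ _ h; cases h) (v := W1 c (mem c) a' (!r)) (by simp) ?_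
          (by intro _ _ h; cases h) (flip_ok (hA a _ ht) a' _ _ mem ih.2)
        simp only [out0, ho, if_true, List.mem_append, List.mem_map]
        exact Or.inl (Or.inr ⟨_, ht, rfl⟩)
    refine ⟨h1, ?_⟩
    have := pass (A := A) (a := a) (p := !r) (r := true) (by simpa using ho) (by simpa using h1)
    simpa using this
  | @all a mem ho _ ih =>
    have h1 : Fo A false (some (N a (!r))) (rest A.m mem) := by
      refine L_ctrl (e := 0) (by simp) (by simp) rfl (Nat.zero_le _) (supp_rest _ _)
        (Or.inl (xs_rest _ _ _)) ?_ ?_
      · intro v hv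
        simp only [ho, if_true, List.mem_append, List.mem_map, Bool.not_not] at hv
        rcases hv with ⟨a', ht, rfl⟩ | ⟨⟨c, b, a'⟩, ht, rfl⟩
        · exact Or.inr ⟨by simp, (ih a' mem (Or.inl ⟨ht, rfl⟩)).1⟩
        · refine Or.inr ⟨by simp, ?_⟩
          have hc : c < A.m := hA a _ ht
          by_cases hb : b = mem c
          · subst hb
            exact flip_ok hc a' _ _ mem (ih a' _ (Or.inr ⟨c, ht, rfl⟩)).1
          · have : b = !mem c := by cases b <;> simp_all
            subst this
            exact flip_bad hc a' _ mem
      · intro c q hq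
        exact Or.inl ⟨_, rest_some hq, by omega⟩
    refine ⟨?_, h1⟩
    have := pass (A := A) (a := a) (p := r) (r := false) ho h1
    simpa using this

/-- The player `true` moving first from the node `a` wins exactly as in the program. -/
theorem simulate' (hA : ∀ a, ∀ f ∈ A.fl a, f.1 < A.m) {r : Bool} {a : ν} {mem : ℕ → Bool}
    (h : Res A r a mem) : Fo A r (some (N a true)) (rest A.m mem) := by
  cases r with
  | true => exact (simulate hA h).1
  | false => exact (simulate hA h).2

end Pool.Agent.MP_8c4891_lc
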