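import Pool.Agent.MP_8c4891_lc.Sim

/-! Cutting a finite closed part out of the gadget graph and numbering its vertices. -/

namespace Pool.Agent.MP_8c4891_lc

theorem Forces.map {S S' : Type} {Mv : S → S → Prop} {Mv' : S' → S' → Prop} (f : S → S')
    (Inv : S → Prop) (h1 : ∀ p q, Inv p → Mv p q → Inv q ∧ Mv' (f p) (f q))
    (h2 : ∀ p q', Inv p → Mv' (f p) q' → ∃ q, Mv p q ∧ q' = f q) {b : Bool} {p : S}
    (h : Forces Mv b p) : Inv p → Forces Mv' b (f p) := by
  induction h with
  | win hm _ ih => intro hp; exact Forces.win (h1 _ _ hp hm).2 (ih (h1 _ _ hp hm).1)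
  | lose _ ih =>
    intro hp
    refine Forces.lose fun q' hq' => ?_
    obtain ⟨q, hq, rfl⟩ := h2 _ _ hp hq'
    exact ih q hq (h1 _ _ hp hq).1

/-- The two token types. -/
def ty (b : Bool) : Fin 2 := if b then 1 else 0

theorem ty_injective : Function.Injective ty := by decide

theorem ty_surjective : Function.Surjective ty := by decide

section transfer

variable {V : Type} (φ : V → ℕ) (U : V → Prop) (n : ℕ)

open Classical in
/-- Transport of a placement along the numbering. -/
noncomputable def push (p : V → Option Bool) (u : Fin n) : Option (Fin 2) :=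
  if h : ∃ a, U a ∧ φ a = u then (p h.choose).map ty else none

variable {φ U n}

theorem push_apply (hφ : Function.Injective φ) (p : V → Option Bool) {a : V} (ha : U a)
    {u : Fin n} (hu : φ a = u) : push φ U n p u = (p a).map ty := by
  have h : ∃ a, U a ∧ φ a = u := ⟨a, ha, hu⟩
  rw [push, dif_pos h, hφ (h.choose_spec.2.trans hu.symm)]

theorem push_eq_some (hφ : Function.Injective φ) (p : V → Option Bool) (u : Fin n) (i : Bool) :
    push φ U n p u = some (ty i) ↔ ∃ a, U a ∧ φ a = u ∧ p a = some i := by
  constructor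
  · intro h
    by_cases h1 : ∃ a, U a ∧ φ a = u
    · obtain ⟨a, ha, hu⟩ := h1
      rw [push_apply hφ p ha hu, Option.map_eq_some_iff] at h
      obtain ⟨j, hj, hj'⟩ := h
      exact ⟨a, ha, hu, by rw [hj, ty_injective hj']⟩
    · rw [push, dif_neg h1] at h
      cases h
  · rintro ⟨a, ha, hu, h⟩
    rw [push_apply hφ p ha hu, h]
    rfl

theorem push_update [DecidableEq V] (hφ : Function.Injective φ) (p : V → Option Bool) {a : V}
    (ha : U a) {u : Fin n} (hu : φ a = u) (o : Option Bool) :
    push φ U n (Function.update p a o) = Function.update (push φ U n p) u (o.map ty) := by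
  funext w
  by_cases hw : w = u
  · subst hw
    rw [push_apply hφ _ ha hu, Function.update_self, Function.update_self]
  · rw [Function.update_of_ne hw]
    by_cases h1 : ∃ a, U a ∧ φ a = w
    · obtain ⟨b, hb, hw'⟩ := h1
      rw [push_apply hφ _ hb hw', push_apply hφ _ hb hw', Function.update_of_ne]
      rintro rfl
      exact hw (Fin.ext (hw'.symm.trans hu))
    · rw [push, push, dif_neg h1, dif_neg h1]

theorem transfer [DecidableEq V] (hφ : Function.Injective φ) {E : Bool → V → V → Prop}
    (hU : ∀ i a b, U a → E i a b → U b) (hn : ∀ a, U a → φ a < n)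
    {E' : Fin 2 → Fin n → Fin n → Prop}
    (hE : ∀ i u v, E' (ty i) u v ↔ ∃ a b, U a ∧ E i a b ∧ φ a = u ∧ φ b = v)
    {r : Bool} {p : V → Option Bool} (h : Forces (Move E) r p) (hp : ∀ a i, p a = some i → U a) :
    Forces (Move E') r (push φ U n p) := by
  have key : ∀ (p : V → Option Bool) (i : Bool) (a b : V) (u v : Fin n), U a → U b → φ a = u →
      φ b = v → push φ U n (Function.update (Function.update p a none) b
        (if (p b).isSome then none else some i)) =
      Function.update (Function.update (push φ U n p) u none) v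
        (if (push φ U n p v).isSome then none else some (ty i)) := by
    intro p i a b u v ha hb hu hv
    rw [push_update hφ _ hb hv, push_update hφ _ ha hu, push_apply hφ p hb hv]
    cases p b <;> rfl
  refine Forces.map (push φ U n) (fun p => ∀ a i, p a = some i → U a) ?_ ?_ h hp
  · rintro p q hp ⟨i, a, b, h1, h2, rfl⟩
    have ha := hp a i h1
    have hb := hU i a b ha h2
    constructor
    · intro c j hc
      by_cases hcb : c = b
      · rwa [hcb]
      · rw [Function.update_of_ne hcb] at hc
        by_cases hca : c = a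
        · rwa [hca]
        · rw [Function.update_of_ne hca] at hc
          exact hp c j hc
    · exact ⟨ty i, ⟨φ a, hn a ha⟩, ⟨φ b, hn b hb⟩, (push_eq_some hφ p _ i).2 ⟨a, ha, rfl, h1⟩,
        (hE i _ _).2 ⟨a, b, ha, h2, rfl, rfl⟩, key p i a b _ _ ha hb rfl rfl⟩
  · rintro p q' hp ⟨i', u, v, h1, h2, rfl⟩
    obtain ⟨i, rfl⟩ := ty_surjective i'
    obtain ⟨a, b, ha, he, hu, hv⟩ := (hE i u v).1 h2
    obtain ⟨a', -, hu', h3⟩ := (push_eq_some hφ p u i).1 h1
    obtain rfl : a = a' := hφ (hu.trans hu'.symm)
    exact ⟨_, ⟨i, a, b, h3, he, rfl⟩, (key p i a b u v ha (hU i a b ha he) hu hv).symm⟩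

end transfer

open Cq Vx

variable {ν : Type}

/-- The vertices that matter. -/
def verts (A : AP ν) (nodes : List ν) : List (Vx ν) :=
  nodes.flatMap (fun a => [N a false, N a true] ++ (A.fl a).flatMap (fun f =>
    [W1 f.1 f.2.1 f.2.2 false, W1 f.1 f.2.1 f.2.2 true,
      W2 f.1 f.2.1 f.2.2 false, W2 f.1 f.2.1 f.2.2 true])) ++
  (List.range (2 * A.m + 1)).map K ++
  (List.range A.m).flatMap (fun c => [X c (R false), X c (R true), X c (T false), X c (T true)] ++
    (List.range (c + 1)).map (fun j => X c (H j)))

variable {A : AP ν} {nodes : List ν}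

theorem N_mem {a : ν} {p : Bool} : N a p ∈ verts A nodes ↔ a ∈ nodes := by
  cases p <;> simp [verts]

theorem W1_mem {c : ℕ} {b : Bool} {a' : ν} {p : Bool} :
    W1 c b a' p ∈ verts A nodes ↔ ∃ a ∈ nodes, (c, b, a') ∈ A.fl a := by
  cases p <;> simp [verts]

theorem W2_mem {c : ℕ} {b : Bool} {a' : ν} {p : Bool} :
    W2 c b a' p ∈ verts A nodes ↔ ∃ a ∈ nodes, (c, b, a') ∈ A.fl a := by
  cases p <;> simp [verts]

theorem K_mem {j : ℕ} : K j ∈ verts A nodes ↔ j ≤ 2 * A.m := by
  simp [verts]

theorem R_mem {c : ℕ} {b : Bool} : X c (R b) ∈ verts A nodes ↔ c < A.m := by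
  cases b <;> simp [verts]

theorem T_mem {c : ℕ} {b : Bool} : X c (T b) ∈ verts A nodes ↔ c < A.m := by
  cases b <;> simp [verts]

theorem H_mem {c j : ℕ} : X c (H j) ∈ verts A nodes ↔ c < A.m ∧ j ≤ c := by
  simp [verts]

theorem verts_closed (h1 : ∀ a, ∀ f ∈ A.fl a, f.1 < A.m)
    (h2 : ∀ a ∈ nodes, ∀ a' ∈ A.pl a, a' ∈ nodes) (h3 : ∀ a ∈ nodes, ∀ f ∈ A.fl a, f.2.2 ∈ nodes)
    (i : Bool) (u v : Vx ν) (hu : u ∈ verts A nodes) (he : Edge A i u v) : v ∈ verts A nodes := by
  cases i with
  | false =>
    simp only [Edge, Bool.false_eq_true, if_false] at he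
    cases u with
    | N a p =>
      rw [N_mem] at hu
      simp only [out0, List.mem_append, mem_ks] at he
      rcases he with he | ⟨j, hj, -, -, rfl⟩
      · split_ifs at he
        · simp only [List.mem_append, List.mem_map] at he
          rcases he with ⟨a', ha', rfl⟩ | ⟨f, hf, rfl⟩
          · exact N_mem.2 (h2 a hu a' ha')
          · exact W1_mem.2 ⟨a, hu, hf⟩
        · simp only [List.mem_singleton] at he
          subst he
          exact N_mem.2 hu
      · exact K_mem.2 hj
    | W1 c b a' p =>
      obtain ⟨a, ha, hf⟩ := W1_mem.1 hu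
      have hc : c < A.m := h1 a _ hf
      simp only [out0, List.mem_append, mem_ks, List.mem_cons, List.not_mem_nil, or_false] at he
      rcases he with (rfl | rfl | rfl) | ⟨j, hj, -, -, rfl⟩
      · exact W2_mem.2 ⟨a, ha, hf⟩
      · exact R_mem.2 hc
      · exact H_mem.2 ⟨hc, Nat.zero_le _⟩
      · exact K_mem.2 hj
    | W2 c b a' p =>
      obtain ⟨a, ha, hf⟩ := W2_mem.1 hu
      have hc : c < A.m := h1 a _ hf
      simp only [out0, List.mem_append, mem_ks, List.mem_cons, List.not_mem_nil, or_false] at he
      rcases he with (rfl | rfl | rfl | rfl) | ⟨j, hj, -, -, rfl⟩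
      · exact N_mem.2 (h3 a ha _ hf)
      · exact R_mem.2 hc
      · exact H_mem.2 ⟨hc, Nat.zero_le _⟩
      · exact T_mem.2 hc
      · exact K_mem.2 hj
    | K j =>
      rw [K_mem] at hu
      simp only [out0, List.mem_map, List.mem_range] at he
      obtain ⟨j', hj, rfl⟩ := he
      exact K_mem.2 (by omega)
    | X c q =>
      simp only [out0, List.mem_map, List.mem_range] at he
      obtain ⟨j', hj, rfl⟩ := he
      exact K_mem.2 (by omega)
  | true =>
    simp only [Edge, if_true] at he
    cases u with
    | X c q =>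
      simp only [out1, List.mem_map] at he
      obtain ⟨q', hq, rfl⟩ := he
      cases q with
      | R b =>
        simp only [outc, List.mem_singleton] at hq
        subst hq
        exact T_mem.2 (R_mem.1 hu)
      | T b =>
        simp only [outc, List.mem_cons, List.mem_map, List.mem_range] at hq
        rcases hq with rfl | ⟨j, hj, rfl⟩
        · exact R_mem.2 (T_mem.1 hu)
        · exact H_mem.2 ⟨T_mem.1 hu, by omega⟩
      | H j =>
        simp only [outc, List.mem_map, List.mem_range] at hq
        obtain ⟨j', hj, rfl⟩ := hq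
        rw [H_mem] at hu ⊢
        omega
    | _ => simp [out1] at he

theorem edge_irrefl (i : Bool) (u : Vx ν) : ¬ Edge A i u u := by
  intro he
  cases i with
  | false =>
    simp only [Edge, Bool.false_eq_true, if_false] at he
    cases u with
    | N a p =>
      simp only [out0, List.mem_append, mem_ks] at he
      split_ifs at he <;> simp at he
    | W1 c b a p => simp [out0, mem_ks] at he
    | W2 c b a p => simp [out0, mem_ks] at he
    | K j => simp [out0] at he
    | X c q => simp [out0] at he
  | true =>
    simp only [Edge, if_true] at he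
    cases u with
    | X c q =>
      simp only [out1, List.mem_map, X.injEq, true_and, exists_eq_right] at he
      exact outc_ne he rfl
    | _ => simp [out1] at he

end Pool.Agent.MP_8c4891_lc
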